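import Pool.Agent.H67.AT.Defs

/-!
# Small lemmas on series with nonnegative coefficients
-/

set_option autoImplicit false
set_option linter.unusedSectionVars false

open Finset PowerSeries

namespace Pool.Agent.H67.AT

theorem PLe.refl (F : PS) : PLe F F := fun _ => le_rfl

theorem PLe.trans {F G H : PS} (h : PLe F G) (h' : PLe G H) : PLe F H :=
  fun n => (h n).trans (h' n)

theorem PLe.add {F G F' G' : PS} (h : PLe F G) (h' : PLe F' G') : PLe (F + F') (G + G') :=
  fun n => by simpa using add_le_add (h n) (h' n)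

theorem PNn.add {F G : PS} (h : PNn F) (h' : PNn G) : PNn (F + G) :=
  fun n => by simpa using add_nonneg (h n) (h' n)

theorem PNn.zero : PNn 0 := fun n => by simp

theorem PNn.one : PNn 1 := fun n => by
  rw [coeff_one]; split_ifs <;> norm_num

theorem PNn.C {c : ℝ} (h : 0 ≤ c) : PNn (PowerSeries.C c) := fun n => by
  rw [coeff_C]; split_ifs <;> simp [h]

theorem PNn.X : PNn PowerSeries.X := fun n => by
  rw [coeff_X]; split_ifs <;> norm_num

theorem PNn.smul {F : PS} {c : ℝ} (hc : 0 ≤ c) (h : PNn F) : PNn (c • F) :=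
  fun n => by simpa using mul_nonneg hc (h n)

theorem PLe.smul {F G : PS} {c : ℝ} (hc : 0 ≤ c) (h : PLe F G) : PLe (c • F) (c • G) :=
  fun n => by simpa using mul_le_mul_of_nonneg_left (h n) hc

theorem PNn.mul {F G : PS} (h : PNn F) (h' : PNn G) : PNn (F * G) := fun n => by
  rw [coeff_mul]
  exact Finset.sum_nonneg fun p _ => mul_nonneg (h _) (h' _)

theorem PLe.mul_left {A F G : PS} (hA : PNn A) (h : PLe F G) : PLe (A * F) (A * G) := fun n => by
  rw [coeff_mul, coeff_mul]
  exact Finset.sum_le_sum fun p _ => mul_le_mul_of_nonneg_left (h _) (hA _)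

theorem PLe.mul_right {A F G : PS} (hA : PNn A) (h : PLe F G) : PLe (F * A) (G * A) := by
  rw [mul_comm F, mul_comm G]; exact PLe.mul_left hA h

theorem PLe.mul {F G F' G' : PS} (hF : PNn F) (hG' : PNn G') (h : PLe F G) (h' : PLe F' G') :
    PLe (F * F') (G * G') :=
  (PLe.mul_left hF h').trans (PLe.mul_right hG' h)

theorem PNn.of_le {F G : PS} (hF : PNn F) (h : PLe F G) : PNn G := fun n => (hF n).trans (h n)

theorem PNn.sum {ι : Type*} {s : Finset ι} {F : ι → PS} (h : ∀ i ∈ s, PNn (F i)) :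
    PNn (∑ i ∈ s, F i) := fun n => by
  rw [map_sum]; exact Finset.sum_nonneg fun i hi => h i hi n

theorem PLe.sum {ι : Type*} {s : Finset ι} {F G : ι → PS} (h : ∀ i ∈ s, PLe (F i) (G i)) :
    PLe (∑ i ∈ s, F i) (∑ i ∈ s, G i) := fun n => by
  rw [map_sum, map_sum]; exact Finset.sum_le_sum fun i hi => h i hi n

theorem PNn.prod {ι : Type*} {s : Finset ι} {F : ι → PS} (h : ∀ i ∈ s, PNn (F i)) :
    PNn (∏ i ∈ s, F i) := by
  classical
  induction s using Finset.induction_on with
  | empty => simpa using PNn.one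
  | insert i s hi ih =>
    rw [Finset.prod_insert hi]
    exact (h i (Finset.mem_insert_self _ _)).mul (ih fun j hj => h j (Finset.mem_insert_of_mem hj))

theorem coeff_dblp (F : PS) (n : ℕ) :
    coeff n (dblp F) = if n = 0 then coeff 0 F else 2 * coeff n F := by
  simp [dblp]

theorem PNn.dblp {F : PS} (h : PNn F) : PNn (dblp F) := fun n => by
  rw [coeff_dblp]; split_ifs
  · exact h 0
  · exact mul_nonneg (by norm_num) (h n)

theorem PLe.dblp {F G : PS} (h : PLe F G) : PLe (dblp F) (dblp G) := fun n => by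
  rw [coeff_dblp, coeff_dblp]; split_ifs
  · exact h 0
  · exact mul_le_mul_of_nonneg_left (h n) (by norm_num)

theorem PLe.le_dblp {F : PS} (h : PNn F) : PLe F (AT.dblp F) := fun n => by
  rw [coeff_dblp]; split_ifs with hn
  · rw [hn]
  · have := h n; linarith

@[simp] theorem fst_dbl (F : DS) : (dbl F).fst = dblp F.fst := rfl

@[simp] theorem snd_dbl (F : DS) : (dbl F).snd = (2 : ℝ) • F.snd := rfl

theorem DLe.refl (F : DS) : DLe F F := ⟨PLe.refl _, PLe.refl _⟩

theorem DLe.trans {F G H : DS} (h : DLe F G) (h' : DLe G H) : DLe F H :=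
  ⟨h.1.trans h'.1, h.2.trans h'.2⟩

theorem DNn.of_le {F G : DS} (hF : DNn F) (h : DLe F G) : DNn G :=
  ⟨hF.1.of_le h.1, hF.2.of_le h.2⟩

theorem DNn.add {F G : DS} (h : DNn F) (h' : DNn G) : DNn (F + G) :=
  ⟨h.1.add h'.1, h.2.add h'.2⟩

theorem DLe.add {F G F' G' : DS} (h : DLe F G) (h' : DLe F' G') : DLe (F + F') (G + G') :=
  ⟨h.1.add h'.1, h.2.add h'.2⟩

theorem DLe.add_right {F A : DS} (h : DNn A) : DLe F (F + A) :=
  ⟨fun n => by simpa using h.1 n, fun n => by simpa using h.2 n⟩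

theorem DLe.add_left {F A : DS} (h : DNn A) : DLe F (A + F) :=
  ⟨fun n => by simpa using h.1 n, fun n => by simpa using h.2 n⟩

theorem DNn.zero : DNn 0 := ⟨PNn.zero, PNn.zero⟩

theorem DNn.one : DNn 1 := ⟨by simpa using PNn.one, by simpa using PNn.zero⟩

theorem DNn.smul {F : DS} {c : ℝ} (hc : 0 ≤ c) (h : DNn F) : DNn (c • F) :=
  ⟨h.1.smul hc, h.2.smul hc⟩

theorem DLe.smul {F G : DS} {c : ℝ} (hc : 0 ≤ c) (h : DLe F G) : DLe (c • F) (c • G) :=
  ⟨h.1.smul hc, h.2.smul hc⟩

theorem snd_mul' (F G : DS) : (F * G).snd = F.fst * G.snd + F.snd * G.fst := by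
  rw [TrivSqZeroExt.snd_mul]; simp [mul_comm]

theorem DNn.mul {F G : DS} (h : DNn F) (h' : DNn G) : DNn (F * G) := by
  refine ⟨by rw [TrivSqZeroExt.fst_mul]; exact h.1.mul h'.1, ?_⟩
  rw [snd_mul']; exact (h.1.mul h'.2).add (h.2.mul h'.1)

theorem DLe.mul_left {A F G : DS} (hA : DNn A) (h : DLe F G) : DLe (A * F) (A * G) := by
  refine ⟨by rw [TrivSqZeroExt.fst_mul, TrivSqZeroExt.fst_mul]; exact PLe.mul_left hA.1 h.1, ?_⟩
  rw [snd_mul', snd_mul']; exact (PLe.mul_left hA.1 h.2).add (PLe.mul_left hA.2 h.1)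

theorem DLe.mul_right {A F G : DS} (hA : DNn A) (h : DLe F G) : DLe (F * A) (G * A) := by
  rw [mul_comm F, mul_comm G]; exact DLe.mul_left hA h

theorem DLe.mul {F G F' G' : DS} (hF : DNn F) (hG' : DNn G') (h : DLe F G) (h' : DLe F' G') :
    DLe (F * F') (G * G') :=
  (DLe.mul_left hF h').trans (DLe.mul_right hG' h)

theorem DNn.sum {ι : Type*} {s : Finset ι} {F : ι → DS} (h : ∀ i ∈ s, DNn (F i)) :
    DNn (∑ i ∈ s, F i) := by
  classical
  induction s using Finset.induction_on with
  | empty => simpa using DNn.zero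
  | insert i s hi ih =>
    rw [Finset.sum_insert hi]
    exact (h i (Finset.mem_insert_self _ _)).add (ih fun j hj => h j (Finset.mem_insert_of_mem hj))

theorem DNn.prod {ι : Type*} {s : Finset ι} {F : ι → DS} (h : ∀ i ∈ s, DNn (F i)) :
    DNn (∏ i ∈ s, F i) := by
  classical
  induction s using Finset.induction_on with
  | empty => simpa using DNn.one
  | insert i s hi ih =>
    rw [Finset.prod_insert hi]
    exact (h i (Finset.mem_insert_self _ _)).mul (ih fun j hj => h j (Finset.mem_insert_of_mem hj))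

theorem DLe.prod {ι : Type*} {s : Finset ι} {F G : ι → DS} (hF : ∀ i ∈ s, DNn (F i))
    (h : ∀ i ∈ s, DLe (F i) (G i)) : DLe (∏ i ∈ s, F i) (∏ i ∈ s, G i) := by
  classical
  induction s using Finset.induction_on with
  | empty => simpa using DLe.refl _
  | insert i s hi ih =>
    rw [Finset.prod_insert hi, Finset.prod_insert hi]
    have h1 := hF i (Finset.mem_insert_self _ _)
    have h2 := h i (Finset.mem_insert_self _ _)
    have h3 : ∀ j ∈ s, DNn (F j) := fun j hj => hF j (Finset.mem_insert_of_mem hj)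
    have h4 : ∀ j ∈ s, DLe (F j) (G j) := fun j hj => h j (Finset.mem_insert_of_mem hj)
    exact DLe.mul h1 (DNn.prod fun j hj => (h3 j hj).of_le (h4 j hj)) h2 (ih h3 h4)

theorem fst_sum {ι : Type*} (s : Finset ι) (F : ι → DS) :
    (∑ i ∈ s, F i).fst = ∑ i ∈ s, (F i).fst := by
  classical
  induction s using Finset.induction_on with
  | empty => simp
  | insert i s hi ih => rw [Finset.sum_insert hi, Finset.sum_insert hi, TrivSqZeroExt.fst_add, ih]

theorem snd_sum {ι : Type*} (s : Finset ι) (F : ι → DS) :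
    (∑ i ∈ s, F i).snd = ∑ i ∈ s, (F i).snd := by
  classical
  induction s using Finset.induction_on with
  | empty => simp
  | insert i s hi ih => rw [Finset.sum_insert hi, Finset.sum_insert hi, TrivSqZeroExt.snd_add, ih]

theorem fst_prod {ι : Type*} (s : Finset ι) (F : ι → DS) :
    (∏ i ∈ s, F i).fst = ∏ i ∈ s, (F i).fst := by
  classical
  induction s using Finset.induction_on with
  | empty => simp
  | insert i s hi ih => rw [Finset.prod_insert hi, Finset.prod_insert hi, TrivSqZeroExt.fst_mul, ih]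

theorem snd_prod {ι : Type*} [DecidableEq ι] (s : Finset ι) (F : ι → DS) :
    (∏ i ∈ s, F i).snd = ∑ j ∈ s, (F j).snd * ∏ i ∈ s.erase j, (F i).fst := by
  induction s using Finset.induction_on with
  | empty => simp
  | insert i s hi ih =>
    rw [Finset.prod_insert hi, snd_mul', fst_prod, Finset.sum_insert hi, ih,
      Finset.erase_insert hi, add_comm, Finset.mul_sum]
    congr 1
    refine Finset.sum_congr rfl fun j hj => ?_
    have hij : i ≠ j := fun h => hi (h ▸ hj)
    rw [Finset.erase_insert_of_ne hij,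
      Finset.prod_insert (fun h => hi (Finset.mem_of_mem_erase h))]
    ring

@[simp] theorem fst_lin (c : ℝ) : (lin c).fst = 1 + PowerSeries.C c * PowerSeries.X := rfl

@[simp] theorem snd_lin (c : ℝ) : (lin c).snd = 0 := rfl

@[simp] theorem fst_eps : eps.fst = 0 := rfl

@[simp] theorem snd_eps : eps.snd = 1 := rfl

theorem DNn.lin {c : ℝ} (hc : 0 ≤ c) : DNn (lin c) :=
  ⟨PNn.one.add ((PNn.C hc).mul PNn.X), PNn.zero⟩

theorem DNn.eps : DNn eps := ⟨PNn.zero, PNn.one⟩

theorem DNn.dbl {F : DS} (h : DNn F) : DNn (dbl F) := ⟨h.1.dblp, h.2.smul (by norm_num)⟩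

theorem coeff_lin (c : ℝ) (n : ℕ) :
    coeff n (AT.lin c).fst = if n = 0 then 1 else if n = 1 then c else 0 := by
  rcases n with _ | _ | n <;> simp [coeff_one, coeff_succ_mul_X]

/-- a series is at least `1 + c z` as soon as its first two coefficients are -/
theorem DLe.lin_of {c : ℝ} {F : DS} (h : DNn F) (h0 : 1 ≤ coeff 0 F.fst)
    (h1 : c ≤ coeff 1 F.fst) : DLe (AT.lin c) F := by
  refine ⟨fun n => ?_, fun n => by simpa using h.2 n⟩
  rw [coeff_lin]
  rcases n with _ | _ | n
  · simpa using h0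
  · simpa using h1
  · simpa using h.1 _

section mat

variable {X : Type} [Fintype X] [DecidableEq X]

theorem MNn.mul {A B : Matrix X X PS} (hA : MNn A) (hB : MNn B) : MNn (A * B) := fun x z => by
  rw [Matrix.mul_apply]; exact PNn.sum fun i _ => (hA _ _).mul (hB _ _)

theorem MNn.one : MNn (1 : Matrix X X PS) := fun x z => by
  rw [Matrix.one_apply]; split_ifs
  · exact PNn.one
  · exact PNn.zero

theorem MNn.pow {A : Matrix X X PS} (hA : MNn A) (n : ℕ) : MNn (A ^ n) := by
  induction n with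
  | zero => simpa using MNn.one
  | succ n ih => rw [pow_succ]; exact ih.mul hA

theorem MNn.of_le {A B : Matrix X X PS} (hA : MNn A) (h : MLe A B) : MNn B :=
  fun x z => (hA x z).of_le (h x z)

theorem MLe.refl (A : Matrix X X PS) : MLe A A := fun _ _ => PLe.refl _

theorem MLe.trans {A B C : Matrix X X PS} (h : MLe A B) (h' : MLe B C) : MLe A C :=
  fun x z => (h x z).trans (h' x z)

theorem MLe.mul {A B A' B' : Matrix X X PS} (hA : MNn A) (hB' : MNn B') (h : MLe A B)
    (h' : MLe A' B') : MLe (A * A') (B * B') := fun x z => by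
  rw [Matrix.mul_apply, Matrix.mul_apply]
  exact PLe.sum fun i _ => PLe.mul (hA _ _) (hB' _ _) (h _ _) (h' _ _)

theorem MLe.pow {A B : Matrix X X PS} (hA : MNn A) (h : MLe A B) (n : ℕ) :
    MLe (A ^ n) (B ^ n) := by
  induction n with
  | zero => simpa using MLe.refl _
  | succ n ih => rw [pow_succ, pow_succ]; exact MLe.mul (hA.pow n) (hA.of_le h) ih h

theorem MLe.sum {ι : Type*} {s : Finset ι} {A B : ι → Matrix X X PS}
    (h : ∀ i ∈ s, MLe (A i) (B i)) : MLe (∑ i ∈ s, A i) (∑ i ∈ s, B i) := fun x z => by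
  rw [Matrix.sum_apply, Matrix.sum_apply]; exact PLe.sum fun i hi => h i hi x z

theorem MNn.sum {ι : Type*} {s : Finset ι} {A : ι → Matrix X X PS}
    (h : ∀ i ∈ s, MNn (A i)) : MNn (∑ i ∈ s, A i) := fun x z => by
  rw [Matrix.sum_apply]; exact PNn.sum fun i hi => h i hi x z

theorem MLe.smul {A B : Matrix X X PS} {c : ℝ} (hc : 0 ≤ c) (h : MLe A B) :
    MLe (c • A) (c • B) := fun x z => by
  rw [Matrix.smul_apply, Matrix.smul_apply]; exact (h x z).smul hc

theorem MNn.smul {A : Matrix X X PS} {c : ℝ} (hc : 0 ≤ c) (h : MNn A) :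
    MNn (c • A) := fun x z => by
  rw [Matrix.smul_apply]; exact (h x z).smul hc

theorem MNn.linm {P M : Matrix X X ℝ} (hP : ∀ x z, 0 ≤ P x z) (hM : ∀ x z, 0 ≤ M x z) :
    MNn (linm P M) := fun x z => (PNn.C (hP x z)).add ((PNn.C (hM x z)).mul PNn.X)

end mat

end Pool.Agent.H67.AT
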