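import Pool.Agent.H67.AT.ROT

/-!
# Row COR: from part A to the abstract theorem for paths of `k ^ L` steps
-/

set_option autoImplicit false

open Finset PowerSeries

namespace Pool.Agent.H67.AT

theorem pf_COR (hLVS : T_LVS) (hROT : T_ROT) (hSEL : T_SEL) (hPAR : T_PAR) (hNET : T_NET)
    (hQNN : T_QNN) (hRTU : T_RTU) : T_COR := by
  classical
  intro hA L D
  obtain ⟨g, hg, hA⟩ := hA L D
  obtain ⟨m, ζ, β, hm, hζ, hβ, heta, k₁, hk₁⟩ := hPAR L D g hg
  obtain ⟨k₀, hA⟩ := hA β hβ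
  set θ : ℝ := ζ ^ m / (m.factorial : ℝ) with hθ
  have hθ0 : 0 < θ := by positivity
  refine ⟨16 * 2 ^ (L + 1), max (max k₀ k₁) 1, ?_⟩
  intro k hk X E Y _ _ _ _ _ _ G s f hX hY hup hum hs hs1 hsv hf hex
  have hkk₀ : k₀ ≤ k := le_trans (le_trans (le_max_left _ _) (le_max_left _ _)) hk
  have hkk₁ : k₁ ≤ k := le_trans (le_trans (le_max_right _ _) (le_max_left _ _)) hk
  have hk1 : 1 ≤ k := le_trans (le_max_right _ _) hk
  have hSys := hNET X E Y G (k ^ L) (1 / (k : ℝ) ^ 20) hup hum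
  obtain ⟨good, hpos, hmass, hfail, hbad⟩ := hA k hkk₀ X Y G.P (Mm G) hX hY hSys
  have hG : Good G k L g β good := by
    refine ⟨hpos, ?_, hfail⟩
    intro l hl x x' hxx
    refine le_trans (le_of_eq ?_) (hmass l hl x x' hxx)
    refine Finset.sum_congr rfl fun y _ => ?_
    unfold rho
    by_cases h : β ≤ uses G.P (Mm G) (k ^ l) x x' y
    · rw [if_pos ⟨hxx, h⟩, if_pos h]
    · rw [if_neg (fun h' => h h'.2), if_neg h]
  set w₀ : ℝ := θ / (16 * 2 ^ (L + 1)) with hw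
  have hw0 : 0 < w₀ := by positivity
  have hkR : (0 : ℝ) < (k : ℝ) := by exact_mod_cast hk1
  set Ψ : X → X → ℝ := fun x x' => ∑ τ : Idx X L, wgt w₀ τ *
    coeff (deg m τ) (qq G k good β f τ L x x').snd with hΨ
  have hqn : ∀ (τ : Idx X L) (x x' : X), DNn (qq G k good β f τ L x x') := fun τ x x' =>
    (hQNN X E Y G k (es G k good β f τ) (mks τ) (fun e => DNn.es' hRTU G k good β hβ f hf τ e)
      (fun l x x' => DNn.mks' τ l x x')).1 L x x'
  have hΨ0 : ∀ x x', 0 ≤ Ψ x x' := fun x x' => Finset.sum_nonneg fun τ _ => by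
    refine mul_nonneg ?_ ((hqn τ x x').2 _)
    rcases τ with _ | p
    · exact hw0.le
    · exact zero_le_one
  have hroot := hROT X E Y G k L m g β (1 / (k : ℝ) ^ 20) w₀ good f s hk1 hβ hg (by positivity)
    hw0.le hf hs hs1 hG hSys
  have hcard : (Fintype.card X : ℝ) ≤ (k : ℝ) ^ D := by exact_mod_cast hX
  have hpar := hk₁ k hkk₁
  have h1 : ∑ x, ∑ x', s x * (G.P ^ k ^ L) x x' * Ψ x x' ≤ θ / 8 := by
    refine hroot.trans ?_
    have h2 : (L + 1 : ℝ) * (Fintype.card X) *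
        ((2 : ℝ) ^ L * (k : ℝ) ^ L * ((m + 1) * ((2 : ℝ) ^ (L + 1) * (1 / (k : ℝ) ^ 20) *
          (k * g)) ^ m)) ≤ θ / 16 := by
      refine le_trans ?_ hpar
      gcongr
    have h3 : w₀ * ((2 : ℝ) ^ (L + 1) * G.ex s (k ^ L) f) ≤ θ / 16 := by
      have : w₀ * ((2 : ℝ) ^ (L + 1) * G.ex s (k ^ L) f) ≤ w₀ * ((2 : ℝ) ^ (L + 1) * 1) := by
        gcongr
      refine this.trans (le_of_eq ?_)
      rw [hw]; field_simp
    linarith
  obtain ⟨x, x', hsx, hQx, hgx, hΨx⟩ := hSEL X s (fun x x' => (G.P ^ k ^ L) x x') Ψ (good L) θ hθ0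
    hs hs1 (fun x x' => G.P_nn _ _ _) (fun x x' _ => hΨ0 x x') hsv
    (fun x => by
      refine le_trans (le_of_eq ?_) (hbad x)
      refine Finset.sum_congr rfl fun x' _ => ?_
      by_cases h : good L x x'
      · simp [h]
      · simp [h])
    h1
  obtain ⟨l, hl1, hl2, hl3, hl4, hl5⟩ := hLVS X E Y G k L m g β w₀ ζ good f hk1 hβ hg hw0.le hm hζ
    hf hG heta x x' hgx hΨx
  refine ⟨l, hl1, hl2, fun e he => (hl3 e he).symm ▸ hsx, hl4, ?_⟩
  have h5 : (l.map f).sum ≤ θ / w₀ := by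
    rw [le_div_iff₀ hw0]; linarith [hl5]
  refine h5.trans (le_of_eq ?_)
  rw [hw]; field_simp

end Pool.Agent.H67.AT
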