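import Pool.Agent.H67.AT.Targets
import Pool.Agent.H67.AT.Ser

/-!
# Row ROT: the potential of the root
-/

set_option autoImplicit false

open Finset PowerSeries

namespace Pool.Agent.H67.AT

theorem Net.P_nn {X E Y : Type} [Fintype X] [DecidableEq X] [Fintype E] [DecidableEq Y]
    (G : Net X E Y) (n : ℕ) (x z : X) : 0 ≤ (G.P ^ n) x z := by
  induction n generalizing x z with
  | zero => rw [pow_zero, Matrix.one_apply]; split_ifs <;> norm_num
  | succ n ih =>
    rw [pow_succ, Matrix.mul_apply]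
    refine Finset.sum_nonneg fun w _ => mul_nonneg (ih x w) ?_
    unfold Net.P
    refine Finset.sum_nonneg fun e _ => ?_
    split_ifs
    · exact G.nonneg e
    · exact le_rfl

theorem Sys.pow_row {X Y : Type} [Fintype X] [DecidableEq X] [Fintype Y] {P : Matrix X X ℝ}
    {M : Y → Matrix X X ℝ} {n : ℕ} {κ : ℝ} (h : Sys P M n κ) (t : ℕ) (x : X) :
    ∑ z, (P ^ t) x z ≤ 1 := by
  induction t generalizing x with
  | zero => simp [Matrix.one_apply]
  | succ t ih =>
    rw [pow_succ']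
    simp_rw [Matrix.mul_apply]
    rw [Finset.sum_comm]
    calc ∑ y, ∑ z, P x y * (P ^ t) y z = ∑ y, P x y * ∑ z, (P ^ t) y z := by
          refine Finset.sum_congr rfl fun y _ => ?_
          rw [Finset.mul_sum]
      _ ≤ ∑ y, P x y * 1 :=
          Finset.sum_le_sum fun y _ => mul_le_mul_of_nonneg_left (ih y) (h.nn x y)
      _ ≤ 1 := by simpa using h.row x

theorem DNn.es' {X E Y : Type} [Fintype X] [DecidableEq X] [Fintype E] [DecidableEq E] [Fintype Y]
    [DecidableEq Y] (hRTU : T_RTU) (G : Net X E Y) (k : ℕ) (good : ℕ → X → X → Prop) (β : ℝ)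
    (hβ : 0 < β) (f : E → ℝ) (hf : ∀ e, 0 ≤ f e) {L : ℕ} (τ : Idx X L) (e : E) :
    DNn (es G k good β f τ e) := by
  rcases τ with _ | ⟨l, A, B⟩
  · refine DNn.one.add ⟨?_, ?_⟩
    · simpa using PNn.zero
    · simpa using PNn.C (hf e)
  · refine DNn.lin ?_
    unfold wo
    split
    · exact le_rfl
    · exact (hRTU X E Y G k good β l A B _ hβ).2.2.1

theorem DNn.mks' {X : Type} [DecidableEq X] {L : ℕ} (τ : Idx X L) (l : ℕ) (x x' : X) :
    DNn (mks τ l x x') := by
  rcases τ with _ | ⟨l', A, B⟩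
  · exact DNn.zero
  · show DNn (if l = l' ∧ x = A ∧ x' = B then AT.eps else 0)
    split_ifs
    · exact DNn.eps
    · exact DNn.zero

theorem pf_ROT (hRCF : T_RCF) (hRCO : T_RCO) (hQNN : T_QNN) (hRTU : T_RTU) : T_ROT := by
  intro X E Y _ _ _ _ _ _ G k L m g β κ w₀ good f s hk hβ hg hκ hw hf hs hs1 hG hS
  set b : ℝ := (2 : ℝ) ^ L * (k : ℝ) ^ L * ((m + 1) * ((2 : ℝ) ^ (L + 1) * κ * (k * g)) ^ m) with hb
  have hb0 : 0 ≤ b := by positivity
  have hqn : ∀ (τ : Idx X L) (x x' : X), DNn (qq G k good β f τ L x x') := fun τ x x' =>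
    (hQNN X E Y G k (es G k good β f τ) (mks τ) (fun e => DNn.es' hRTU G k good β hβ f hf τ e)
      (fun l x x' => DNn.mks' τ l x x')).1 L x x'
  have hsle : ∀ x, s x ≤ 1 := fun x => hs1 ▸ Finset.single_le_sum (fun x _ => hs x) (mem_univ x)
  have e1 : ∑ x, ∑ x', s x * (G.P ^ k ^ L) x x' *
      ∑ τ : Idx X L, wgt w₀ τ * coeff (deg m τ) (qq G k good β f τ L x x').snd =
      ∑ τ : Idx X L, wgt w₀ τ * ∑ x, ∑ x', s x * (G.P ^ k ^ L) x x' *
        coeff (deg m τ) (qq G k good β f τ L x x').snd := by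
    simp_rw [Finset.mul_sum]
    calc _ = ∑ x, ∑ τ : Idx X L, ∑ x', s x * (G.P ^ k ^ L) x x' *
          (wgt w₀ τ * coeff (deg m τ) (qq G k good β f τ L x x').snd) :=
          Finset.sum_congr rfl fun x _ => Finset.sum_comm
      _ = ∑ τ : Idx X L, ∑ x, ∑ x', s x * (G.P ^ k ^ L) x x' *
          (wgt w₀ τ * coeff (deg m τ) (qq G k good β f τ L x x').snd) := Finset.sum_comm
      _ = _ := Finset.sum_congr rfl fun τ _ => Finset.sum_congr rfl fun x _ =>
          Finset.sum_congr rfl fun x' _ => by ring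
  rw [e1, Fintype.sum_option]
  have e2 : wgt w₀ (none : Idx X L) * ∑ x, ∑ x', s x * (G.P ^ k ^ L) x x' *
      coeff (deg m (none : Idx X L)) (qq G k good β f none L x x').snd ≤
      w₀ * ((2 : ℝ) ^ (L + 1) * G.ex s (k ^ L) f) :=
    mul_le_mul_of_nonneg_left (hRCO X E Y G k L β good f s hk hf hs) hw
  have e3 : ∀ p : Fin (L + 1) × X × X, wgt w₀ (some p : Idx X L) * ∑ x, ∑ x',
      s x * (G.P ^ k ^ L) x x' * coeff (deg m (some p : Idx X L))
        (qq G k good β f (some p) L x x').snd ≤ b * (G.P ^ k ^ (p.1 : ℕ)) p.2.1 p.2.2 := by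
    rintro ⟨l, A, B⟩
    refine le_trans ?_ (hRCF X E Y G k L m g β κ good f hk hβ hg hκ hf hG hS l A B)
    show (1 : ℝ) * _ ≤ _
    rw [one_mul]
    refine Finset.sum_le_sum fun x _ => Finset.sum_le_sum fun x' _ => ?_
    have h1 := (hqn (some (l, A, B)) x x').2 m
    have h2 := G.P_nn (k ^ L) x x'
    show s x * (G.P ^ k ^ L) x x' * coeff m _ ≤ (G.P ^ k ^ L) x x' * coeff m _
    refine mul_le_mul_of_nonneg_right ?_ h1
    nlinarith [hsle x, hs x]
  have e4 : ∑ p : Fin (L + 1) × X × X, b * (G.P ^ k ^ (p.1 : ℕ)) p.2.1 p.2.2 ≤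
      (L + 1) * (Fintype.card X) * b := by
    rw [Fintype.sum_prod_type]
    simp_rw [Fintype.sum_prod_type]
    calc ∑ l : Fin (L + 1), ∑ A, ∑ B, b * (G.P ^ k ^ (l : ℕ)) A B
        ≤ ∑ _l : Fin (L + 1), ∑ _A : X, b := by
          refine Finset.sum_le_sum fun l _ => Finset.sum_le_sum fun A _ => ?_
          rw [← Finset.mul_sum]
          have := hS.pow_row (k ^ (l : ℕ)) A
          nlinarith
      _ = (L + 1) * (Fintype.card X) * b := by
          simp [Finset.card_univ]; ring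
  have e5 := Finset.sum_le_sum fun p (_ : p ∈ (univ : Finset (Fin (L + 1) × X × X))) => e3 p
  linarith

end Pool.Agent.H67.AT
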