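import Pool.Agent.H67.AT.Targets
import Pool.Agent.H67.AT.Ser

/-!
# Rows SMR and SMG: conditioning of series, the potential is a supermartingale
-/

set_option autoImplicit false

open Finset PowerSeries

namespace Pool.Agent.H67.AT

theorem coeff_snd_sum {ι : Type*} (s : Finset ι) (μ : ι → ℝ) (F : ι → DS) (A : DS) (n : ℕ) :
    ∑ r ∈ s, μ r * coeff n (A * F r).snd = coeff n (A * ∑ r ∈ s, μ r • F r).snd := by
  rw [Finset.mul_sum, snd_sum, map_sum]
  refine Finset.sum_congr rfl fun r _ => ?_
  rw [mul_smul_comm, TrivSqZeroExt.snd_smul]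
  simp [mul_add]

theorem pf_SMR : T_SMR := by
  intro R _ μ E F q A n hμ h1 hE hF hc hq hA
  rw [coeff_snd_sum]
  set M := ∑ r ∈ E, μ r with hM
  have hM0 : 0 ≤ M := Finset.sum_nonneg fun r _ => hμ r
  have key : DLe (∑ r ∈ E, μ r • F r) (M • q) := by
    constructor
    · intro n
      have hqn := hq.1 n
      rw [fst_dbl, coeff_dblp] at hqn
      rw [TrivSqZeroExt.fst_smul, fst_sum, map_sum]
      have e1 : coeff n (M • q.fst) = M * coeff n q.fst := by simp
      rw [e1]
      have e2 : ∀ r, coeff n (μ r • F r).fst = μ r * coeff n (F r).fst := fun r => by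
        rw [TrivSqZeroExt.fst_smul]; simp
      simp_rw [e2]
      by_cases hn : n = 0
      · subst hn
        have h3 : ∀ r, μ r * coeff 0 (F r).fst = μ r := by
          intro r
          rcases (hμ r).eq_or_lt with h | h
          · rw [← h]; simp
          · rw [hc r h, mul_one]
        rw [Finset.sum_congr rfl fun r _ => h3 r, ← hM]
        have h4 : (1 : ℝ) ≤ coeff 0 q.fst := by
          have := hqn
          rw [if_pos rfl, fst_sum, map_sum] at this
          rw [← h1]
          refine le_trans (le_of_eq ?_) this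
          refine Finset.sum_congr rfl fun r _ => ?_
          rw [e2, h3]
        nlinarith
      · rw [if_neg hn, fst_sum, map_sum] at hqn
        simp_rw [e2] at hqn
        have h5 : ∑ r ∈ E, μ r * coeff n (F r).fst ≤ ∑ r, μ r * coeff n (F r).fst :=
          Finset.sum_le_sum_of_subset_of_nonneg (Finset.subset_univ _) fun r _ _ =>
            mul_nonneg (hμ r) ((hF r).1 n)
        have h6 : 0 ≤ ∑ r, μ r * coeff n (F r).fst :=
          Finset.sum_nonneg fun r _ => mul_nonneg (hμ r) ((hF r).1 n)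
        nlinarith
    · intro n
      have hqn := hq.2 n
      rw [snd_dbl] at hqn
      rw [TrivSqZeroExt.snd_smul, snd_sum, map_sum]
      have e1 : coeff n (M • q.snd) = M * coeff n q.snd := by simp
      rw [e1]
      have e2 : ∀ r, coeff n (μ r • F r).snd = μ r * coeff n (F r).snd := fun r => by
        rw [TrivSqZeroExt.snd_smul]; simp
      have e3 : coeff n ((2 : ℝ) • (∑ r, μ r • F r).snd) = 2 * ∑ r, μ r * coeff n (F r).snd := by
        rw [snd_sum]
        simp only [map_smul, map_sum, smul_eq_mul, e2]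
      rw [e3] at hqn
      simp_rw [e2]
      have h5 : ∑ r ∈ E, μ r * coeff n (F r).snd ≤ ∑ r, μ r * coeff n (F r).snd :=
        Finset.sum_le_sum_of_subset_of_nonneg (Finset.subset_univ _) fun r _ _ =>
          mul_nonneg (hμ r) ((hF r).2 n)
      have h6 : 0 ≤ ∑ r, μ r * coeff n (F r).snd :=
        Finset.sum_nonneg fun r _ => mul_nonneg (hμ r) ((hF r).2 n)
      nlinarith
  have h7 := (DLe.mul_left hA key).2 n
  rw [mul_smul_comm, TrivSqZeroExt.snd_smul] at h7
  simpa [mul_add] using h7

theorem pf_SMG (hSMR : T_SMR) : T_SMG := by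
  intro R Y T _ _ _ S V β g η m hS hV p hp r hr E hE hE2
  classical
  -- the product of the other blocks
  set A' : T → DS := fun τ => (∏ j ∈ range p, ∏ i, V.cc τ (r j) i) *
    ∏ j ∈ Ico (p + 1) S.N, V.A τ j with hA'
  have nnA' : ∀ τ, DNn (A' τ) := by
    intro τ
    refine DNn.mul (DNn.prod fun j _ => DNn.prod fun i _ => hV.nnc τ _ i) (DNn.prod fun j hj => ?_)
    rw [Finset.mem_Ico] at hj
    exact hV.nnA τ j hj.2
  have e1 : ∀ r', V.Ψ (p + 1) (Function.update r p r') =
      ∑ τ, V.w τ * coeff (V.dg τ) (A' τ * ∏ i, V.cc τ r' i).snd := by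
    intro r'
    unfold Pot.Ψ
    refine Finset.sum_congr rfl fun τ _ => ?_
    congr 2
    rw [hA', Finset.prod_range_succ, Function.update_self]
    have : ∏ j ∈ range p, ∏ i, V.cc τ (Function.update r p r' j) i =
        ∏ j ∈ range p, ∏ i, V.cc τ (r j) i := by
      refine Finset.prod_congr rfl fun j hj => ?_
      rw [Function.update_of_ne (by rw [Finset.mem_range] at hj; exact hj.ne)]
    rw [this]
    congr 1
    ring
  have e2 : V.Ψ p r = ∑ τ, V.w τ * coeff (V.dg τ) (A' τ * V.A τ p).snd := by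
    unfold Pot.Ψ
    refine Finset.sum_congr rfl fun τ _ => ?_
    congr 3
    rw [hA', Finset.prod_eq_prod_Ico_succ_bot hp]
    ring
  simp_rw [e1, e2, Finset.mul_sum]
  rw [Finset.sum_comm]
  refine Finset.sum_le_sum fun τ _ => ?_
  have h := hSMR R (S.μ p) E (fun r' => ∏ i, V.cc τ r' i) (V.A τ p) (A' τ) (V.dg τ)
    (hS.nn p hp) (hS.one p hp) hE2 (fun r' => DNn.prod fun i _ => hV.nnc τ r' i)
    (fun r' hr' => by
      rw [fst_prod, coeff_zero_eq_constantCoeff, map_prod]
      refine Finset.prod_eq_one fun i _ => ?_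
      rw [← coeff_zero_eq_constantCoeff_apply]
      exact hV.one τ p hp r' i hr')
    (hV.dom τ p hp) (nnA' τ)
  calc ∑ r' ∈ E, S.μ p r' * (V.w τ * coeff (V.dg τ) (A' τ * ∏ i, V.cc τ r' i).snd)
      = V.w τ * ∑ r' ∈ E, S.μ p r' * coeff (V.dg τ) (A' τ * ∏ i, V.cc τ r' i).snd := by
        rw [Finset.mul_sum]; exact Finset.sum_congr rfl fun r' _ => by ring
    _ ≤ V.w τ * ((∑ r' ∈ E, S.μ p r') * coeff (V.dg τ) (A' τ * V.A τ p).snd) :=
        mul_le_mul_of_nonneg_left h (hV.w_nn τ)
    _ = _ := by ring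

end Pool.Agent.H67.AT
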