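import Pool.Agent.H48.AT.COE
import Pool.Agent.H67.AT.COR
import Pool.Agent.H3.HAT.DWN
import Pool.Agent.H72.AT.EVT
import Pool.Agent.H48.AT.EX0
import Pool.Agent.H68.AT.EXC
import Pool.Agent.H72.AT.FST
import Pool.Agent.H48.AT.GLU
import Pool.Agent.H79.AT.LBG
import Pool.Agent.H1.AT.LIN
import Pool.Agent.H3.HAT.LST
import Pool.Agent.H46.AT.LVS
import Pool.Agent.H49.AT.MU0
import Pool.Agent.H49.AT.MU1
import Pool.Agent.H86.AT.NET
import Pool.Agent.H79.AT.PAD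
import Pool.Agent.H79.AT.PAK
import Pool.Agent.H35.AT.PAN
import Pool.Agent.H86.AT.PAR
import Pool.Agent.H69.AT.PT0
import Pool.Agent.H54.AT.PTO
import Pool.Agent.H49.AT.QLO
import Pool.Agent.H86.AT.QNN
import Pool.Agent.H46.AT.QRC
import Pool.Agent.H90.HAT.RCF
import Pool.Agent.H61.AT.RCO
import Pool.Agent.H67.AT.ROT
import Pool.Agent.H50.AT.RTG
import Pool.Agent.H50.AT.RTU
import Pool.Agent.H29.AT.SEL
import Pool.Agent.H49.AT.SK1
import Pool.Agent.H29.AT.SKM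
import Pool.Agent.H67.AT.SMR
import Pool.Agent.H54.AT.SND
import Pool.Agent.H3.HAT.STG
import Pool.Agent.H86.AT.SV0
import Pool.Agent.H54.AT.SVL
import Pool.Agent.H29.AT.TOT
import Pool.Agent.H45.HAT.USE
import Pool.Agent.H49.AT.USU
import Pool.Agent.H90.SPW.TA

/-!
# The abstract theorem: assembly of part B, with part A
-/

set_option autoImplicit false

namespace Pool.Agent.H67.AT

theorem SKM : T_SKM := H29.AT.pf_SKM
theorem SK1 : T_SK1 := H49.AT.pf_SK1 SKM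
theorem MU1 : T_MU1 := H49.AT.pf_MU1 SKM
theorem MU0 : T_MU0 := H49.AT.pf_MU0
theorem USU : T_USU := H49.AT.pf_USU SK1 H45.HAT.pf_USE MU1
theorem RTU : T_RTU := H50.AT.pf_RTU USU MU1
theorem RTG : T_RTG := H50.AT.pf_RTG MU1 RTU
theorem QNN : T_QNN := H86.AT.pf_QNN MU1 MU0
theorem QLO : T_QLO := H49.AT.pf_QLO USU MU0 MU1 QNN
theorem STG : T_STG := H3.HAT.stg H68.AT.pf_EXC H72.AT.pf_EVT
theorem SMG : T_SMG := pf_SMG pf_SMR
theorem LBG : T_LBG := H79.AT.pf_LBG H1.AT.pf_LIN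
theorem SVL : T_SVL := H54.AT.pf_SVL MU1 RTU
theorem SV0 : T_SV0 := H86.AT.pf_SV0 MU0 RTU
theorem PTO : T_PTO := H54.AT.pf_PTO QNN QLO MU1 RTU
theorem PT0 : T_PT0 := H69.AT.pf_PT0 QNN QLO MU0 RTU
theorem DWN : T_DWN := H3.HAT.dwn STG SMG LBG SVL PTO H48.AT.pf_GLU
theorem LST : T_LST := H3.HAT.lst STG SMG LBG SV0 PT0 MU0
theorem LVS : T_LVS := H46.AT.pf_LVS DWN LST
theorem QRC : T_QRC := H46.AT.pf_QRC SK1 SKM MU1 MU0
theorem FST : T_FST := H72.AT.pf_FST QRC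
theorem SND : T_SND := H54.AT.pf_SND QRC
theorem TOT : T_TOT := H29.AT.pf_TOT H48.AT.pf_COE
theorem RCF : T_RCF := H90.HAT.pf_RCF QRC FST SND TOT RTG RTU
theorem RCO : T_RCO := H61.AT.pf_RCO QRC FST SND
theorem ROT : T_ROT := pf_ROT RCF RCO QNN RTU
theorem COR : T_COR := pf_COR LVS ROT H29.AT.pf_SEL H86.AT.pf_PAR H86.AT.NET.pf_NET QNN RTU

/-- the abstract theorem for paths of `k ^ L` steps -/
theorem core : T_CORE := COR H90.SPW.pf_TA

/-- the abstract theorem -/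
theorem at_ : Pool.Agent.H66.SLP.T_AT :=
  H79.AT.pf_PAD H35.AT.pf_PAN H79.AT.pf_PAK H48.AT.pf_EX0 core

end Pool.Agent.H67.AT
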