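import Mathlib

/-!
# The abstract theorem: interface of the two parts

`T_A` is the internal part (bridges of a Markov chain with small usage of every letter, entropy
bound), `T_CORE` is the abstract theorem for paths of `k ^ L` steps.
-/

set_option autoImplicit false

open Finset

namespace Pool.Agent.H67.AT

/-- A weighted graph: the edge `e` goes from `src e` to `tgt e`, has the weight `wt e`, and carries
the letter `lt e` (or none). The weights out of a state, and into a state, have sum at most one -/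
structure Net (X E Y : Type) [Fintype E] [DecidableEq X] where
  src : E → X
  tgt : E → X
  wt : E → ℝ
  lt : E → Option Y
  nonneg : ∀ e, 0 ≤ wt e
  out_le : ∀ x, ∑ e, (if src e = x then wt e else 0) ≤ 1
  in_le : ∀ x, ∑ e, (if tgt e = x then wt e else 0) ≤ 1

section net

variable {X E Y : Type} [Fintype X] [DecidableEq X] [Fintype E] [DecidableEq Y] (G : Net X E Y)

/-- the transition matrix -/
def Net.P : Matrix X X ℝ :=
  Matrix.of fun x z => ∑ e, if G.src e = x ∧ G.tgt e = z then G.wt e else 0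

/-- the expected number of uses of the letter `y` in the first `n` steps, from `x` -/
def Net.up (n : ℕ) (x : X) (y : Y) : ℝ :=
  ∑ t ∈ range n, ∑ e, if G.lt e = some y then (G.P ^ t) x (G.src e) * G.wt e else 0

/-- the same for the reversed chain -/
def Net.um (n : ℕ) (x : X) (y : Y) : ℝ :=
  ∑ t ∈ range n, ∑ e, if G.lt e = some y then G.wt e * (G.P ^ t) (G.tgt e) x else 0

/-- a path: a list of edges of positive weight, each of which starts where the last one ends -/
def Net.Walk (l : List E) : Prop :=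
  (∀ e ∈ l, 0 < G.wt e) ∧ l.IsChain fun a b => G.tgt a = G.src b

/-- the expectation of the sum of `f` over the first `n` edges, from the start weights `s` -/
def Net.ex (s : X → ℝ) (n : ℕ) (f : E → ℝ) : ℝ :=
  ∑ t ∈ range n, ∑ x, ∑ e, s x * (G.P ^ t) x (G.src e) * G.wt e * f e

end net

section defs

variable {X Y : Type} [Fintype X] [DecidableEq X]

/-- the weights of the paths of `h` steps with a marked `M`-step, summed over the place of the
mark: the unnormalised expected number of uses of the letter with the matrix `M` -/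
noncomputable def usk (P M : Matrix X X ℝ) (h : ℕ) : Matrix X X ℝ :=
  ∑ i ∈ range h, P ^ i * M * P ^ (h - 1 - i)

/-- the expected number of uses of the letter `y` in a path of `h` steps from `x` to `x'` -/
noncomputable def uses (P : Matrix X X ℝ) (M : Y → Matrix X X ℝ) (h : ℕ) (x x' : X) (y : Y) : ℝ :=
  usk P (M y) h x x' / (P ^ h) x x'

/-- the weight of a path of `k` steps -/
noncomputable def skw (Q : Matrix X X ℝ) {k : ℕ} (s : Fin (k + 1) → X) : ℝ :=
  ∏ i : Fin k, Q (s i.castSucc) (s i.succ)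

/-- the hypotheses on the transition matrix `P` and the matrices `M y` of the letters -/
structure Sys [Fintype Y] (P : Matrix X X ℝ) (M : Y → Matrix X X ℝ) (n : ℕ) (κ : ℝ) : Prop where
  nn : ∀ x z, 0 ≤ P x z
  row : ∀ x, ∑ z, P x z ≤ 1
  col : ∀ z, ∑ x, P x z ≤ 1
  mnn : ∀ y x z, 0 ≤ M y x z
  mle : ∀ x z, ∑ y, M y x z ≤ P x z
  up : ∀ x y, ∑ t ∈ range n, ∑ z, (P ^ t * M y) x z ≤ κ
  um : ∀ x y, ∑ t ∈ range n, ∑ z, (M y * P ^ t) z x ≤ κ

/-- two letters loads: the blocks `(a, a')` and `(b, b')` of `h` steps both have an expected number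
`≥ β` of uses of one letter -/
def Clash (P : Matrix X X ℝ) (M : Y → Matrix X X ℝ) (h : ℕ) (β : ℝ) (a a' b b' : X) : Prop :=
  ∃ y, β ≤ uses P M h a a' y ∧ β ≤ uses P M h b b' y

open Classical in
/-- the unnormalised probability that the random skeleton of a block `x → x'` of `k * h` steps has a
child (a block of `h` steps) which is not good, or two children which clash -/
noncomputable def failw (P : Matrix X X ℝ) (M : Y → Matrix X X ℝ) (k h : ℕ) (β : ℝ)
    (good : X → X → Prop) (x x' : X) : ℝ :=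
  ∑ s : Fin (k + 1) → X, if s 0 = x ∧ s (Fin.last k) = x' ∧
    ((∃ i : Fin k, ¬ good (s i.castSucc) (s i.succ)) ∨
      ∃ i j : Fin k, i < j ∧
        Clash P M h β (s i.castSucc) (s i.succ) (s j.castSucc) (s j.succ)) then
    skw (P ^ h) s else 0

end defs

open Classical in
/-- PART A. There are good blocks: their letters with an expected number of uses `≥ β` have
altogether at most `g` uses (with `g` independent of `β`), the children of a good block are good
and do not clash with probability `≥ 3/4`, most blocks of the top level are good. -/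
def T_A : Prop := ∀ L D : ℕ, ∃ g : ℝ, 1 ≤ g ∧ ∀ β : ℝ, 0 < β → ∃ k₀ : ℕ, ∀ k ≥ k₀,
  ∀ (X Y : Type) [Fintype X] [DecidableEq X] [Fintype Y] [DecidableEq Y]
  (P : Matrix X X ℝ) (M : Y → Matrix X X ℝ),
  Fintype.card X ≤ k ^ D → Fintype.card Y ≤ k ^ D → Sys P M (k ^ L) (1 / (k : ℝ) ^ 20) →
  ∃ good : ℕ → X → X → Prop,
    (∀ l ≤ L, ∀ x x', good l x x' → 0 < (P ^ k ^ l) x x') ∧
    (∀ l ≤ L, ∀ x x', good l x x' →
      ∑ y, (if β ≤ uses P M (k ^ l) x x' y then uses P M (k ^ l) x x' y else 0) ≤ g) ∧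
    (∀ l < L, ∀ x x', good (l + 1) x x' →
      failw P M k (k ^ l) β (good l) x x' ≤ 1 / 4 * (P ^ k ^ (l + 1)) x x') ∧
    ∀ x, ∑ x', (if good L x x' then 0 else (P ^ k ^ L) x x') ≤ 1 / 8

/-- CORE. The abstract theorem for paths of `k ^ L` steps. -/
def T_CORE : Prop := ∀ L D : ℕ, ∃ (C : ℝ) (k₀ : ℕ), ∀ k ≥ k₀,
  ∀ (X E Y : Type) [Fintype X] [DecidableEq X] [Fintype E] [DecidableEq E] [Fintype Y]
  [DecidableEq Y] (G : Net X E Y) (s : X → ℝ) (f : E → ℝ),
  Fintype.card X ≤ k ^ D → Fintype.card Y ≤ k ^ D →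
  (∀ x y, G.up (k ^ L) x y ≤ 1 / (k : ℝ) ^ 20) → (∀ x y, G.um (k ^ L) x y ≤ 1 / (k : ℝ) ^ 20) →
  (∀ x, 0 ≤ s x) → ∑ x, s x = 1 → 1 / 2 ≤ ∑ x, ∑ z, s x * (G.P ^ k ^ L) x z →
  (∀ e, 0 ≤ f e) → G.ex s (k ^ L) f ≤ 1 →
  ∃ l : List E, l.length = k ^ L ∧ G.Walk l ∧ (∀ e ∈ l.head?, 0 < s (G.src e)) ∧
    (l.filterMap G.lt).Nodup ∧ (l.map f).sum ≤ C

end Pool.Agent.H67.AT
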