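import Pool.Agent.H67.AT.Core

/-!
# Part B of the abstract theorem: definitions

Series: `PS = ℝ⟦z⟧`, `DS = PS[ε]` with `ε ^ 2 = 0`, ordered by coefficients. A stage refines `N`
blocks in order; the potential is a sum of coefficients of products of series over the current
blocks.
-/

set_option autoImplicit false

open Finset PowerSeries

namespace Pool.Agent.H67.AT

/-! ### series -/

/-- power series in `z` -/
abbrev PS : Type := PowerSeries ℝ

/-- dual numbers over the power series -/
abbrev DS : Type := DualNumber PS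

/-- order by coefficients -/
def PLe (F G : PS) : Prop := ∀ n, coeff n F ≤ coeff n G

/-- nonnegative coefficients -/
def PNn (F : PS) : Prop := ∀ n, 0 ≤ coeff n F

/-- order by coefficients -/
def DLe (F G : DS) : Prop := PLe F.fst G.fst ∧ PLe F.snd G.snd

/-- nonnegative coefficients -/
def DNn (F : DS) : Prop := PNn F.fst ∧ PNn F.snd

/-- all coefficients doubled but the constant one -/
noncomputable def dblp (F : PS) : PS := PowerSeries.mk fun n => if n = 0 then coeff 0 F else 2 * coeff n F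

/-- all coefficients doubled but the constant one -/
noncomputable def dbl (F : DS) : DS := (dblp F.fst, (2 : ℝ) • F.snd)

/-- `1 + c z` -/
noncomputable def lin (c : ℝ) : DS := TrivSqZeroExt.inl (1 + PowerSeries.C c * PowerSeries.X)

/-- the symbol `ε` -/
noncomputable def eps : DS := TrivSqZeroExt.inr 1

/-! ### matrices of power series -/

section mat

variable {X : Type} [Fintype X] [DecidableEq X]

/-- order by coefficients -/
def MLe (A B : Matrix X X PS) : Prop := ∀ x z, PLe (A x z) (B x z)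

/-- nonnegative coefficients -/
def MNn (A : Matrix X X PS) : Prop := ∀ x z, PNn (A x z)

/-- the matrix `P + z M` -/
noncomputable def linm (P M : Matrix X X ℝ) : Matrix X X PS :=
  Matrix.of fun x z => PowerSeries.C (P x z) + PowerSeries.C (M x z) * PowerSeries.X

end mat

/-! ### a stage -/

/-- the load of a pair -/
def ld {Y : Type} [Fintype Y] (a b : Y → ℝ) : ℝ := ∑ y, a y * b y

/-- A stage: `N` blocks with the load vectors `ρB j`; the block `j` has the refinement `r` with
probability `μ j r`, a refinement has `K` children with the load vectors `ρC r i`. -/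
structure Stage (R Y : Type) where
  N : ℕ
  K : ℕ
  μ : ℕ → R → ℝ
  ρB : ℕ → Y → ℝ
  ρC : R → Fin K → Y → ℝ
  acc : R → Prop

section stage

variable {R Y : Type} [Fintype R] [Fintype Y] (S : Stage R Y)

/-- the expected load of the children of the block `j` -/
def Stage.rt (j : ℕ) (y : Y) : ℝ := ∑ r, S.μ j r * ∑ i, S.ρC r i y

/-- the current blocks apart from the block `p`, when the blocks before `p` have been refined -/
def Stage.obj (p : ℕ) : Finset (ℕ ⊕ ℕ × Fin S.K) :=
  (Ioo p S.N).disjSum (range p ×ˢ (univ : Finset (Fin S.K)))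

/-- the load vector of a current block -/
def Stage.vec (r : ℕ → R) : ℕ ⊕ ℕ × Fin S.K → Y → ℝ :=
  Sum.elim S.ρB fun q => S.ρC (r q.1) q.2

/-- the blocks before `p` have been refined in an admissible way -/
def Stage.Adm (p : ℕ) (r : ℕ → R) : Prop := ∀ j < p, S.acc (r j) ∧ 0 < S.μ j (r j)

open Classical in
/-- the hypotheses on a stage -/
structure Stage.Valid (β g η : ℝ) : Prop where
  nn : ∀ j < S.N, ∀ r, 0 ≤ S.μ j r
  one : ∀ j < S.N, ∑ r, S.μ j r = 1
  nnB : ∀ j < S.N, ∀ y, 0 ≤ S.ρB j y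
  nnC : ∀ r i y, 0 ≤ S.ρC r i y
  rt_le : ∀ j < S.N, ∀ y, S.rt j y ≤ S.ρB j y + β
  gB : ∀ j < S.N, ∑ y, S.ρB j y ≤ g
  gC : ∀ r i, S.acc r → ∑ y, S.ρC r i y ≤ g
  sib : ∀ r, S.acc r → ∀ i i', i ≠ i' → ld (S.ρC r i) (S.ρC r i') = 0
  fail : ∀ j < S.N, ∑ r, (if S.acc r then 0 else S.μ j r) ≤ 1 / 4
  pair : ∀ j < S.N, ∀ j' < S.N, j ≠ j' → ld (S.ρB j) (S.ρB j') ≤ η

/-- the pair loads between a new and an old block -/
def eta1 (m : ℕ) (ζ β g η : ℝ) : ℝ := 16 * m * (η + β * g) + 16 * ζ

/-- the pair loads after a stage -/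
def eta2 (m : ℕ) (ζ β g η : ℝ) : ℝ := eta1 m ζ β g (eta1 m ζ β g η)

/-- supermartingale property of an abstract potential `Ψ p r` (the blocks before `p` are refined by
`r`) -/
def Stage.SM (Ψ : ℕ → (ℕ → R) → ℝ) : Prop :=
  ∀ p < S.N, ∀ r, S.Adm p r → ∀ E : Finset R, (∀ r' ∈ E, S.acc r') →
    1 / 2 ≤ ∑ r' ∈ E, S.μ p r' →
    ∑ r' ∈ E, S.μ p r' * Ψ (p + 1) (Function.update r p r') ≤ (∑ r' ∈ E, S.μ p r') * Ψ p r

/-- the potential controls the elementary symmetric sum of the expected pair loads of the block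
`p` -/
def Stage.LB (m : ℕ) (Ψ : ℕ → (ℕ → R) → ℝ) : Prop :=
  ∀ p < S.N, ∀ r, S.Adm p r →
    ∑ T ∈ powersetCard m (S.obj p), ∏ o ∈ T, ld (S.rt p) (S.vec r o) ≤ Ψ p r

/-- Series for a stage: for every index `τ` the series `A τ j` of the block `j`, and the series
`cc τ r i` of the child `i` of the refinement `r`. -/
structure Pot (T : Type) where
  w : T → ℝ
  dg : T → ℕ
  A : T → ℕ → DS
  cc : T → R → Fin S.K → DS

variable {S} {T : Type} [Fintype T] (V : Pot S T)

/-- the potential, when the blocks before `p` are refined by `r` -/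
noncomputable def Pot.Ψ (p : ℕ) (r : ℕ → R) : ℝ :=
  ∑ τ, V.w τ * coeff (V.dg τ)
    ((∏ j ∈ range p, ∏ i, V.cc τ (r j) i) * ∏ j ∈ Ico p S.N, V.A τ j).snd

/-- the hypotheses on the series -/
structure Pot.OK (m : ℕ) : Prop where
  w_nn : ∀ τ, 0 ≤ V.w τ
  nnA : ∀ τ, ∀ j < S.N, DNn (V.A τ j)
  nnc : ∀ τ r i, DNn (V.cc τ r i)
  one : ∀ τ, ∀ j < S.N, ∀ r i, 0 < S.μ j r → coeff 0 (V.cc τ r i).fst = 1
  dom : ∀ τ, ∀ j < S.N, DLe (dbl (∑ r, S.μ j r • ∏ i, V.cc τ r i)) (V.A τ j)
  low : ∀ j < S.N, ∃ τ, V.w τ = 1 ∧ V.dg τ = m ∧ DLe eps (V.A τ j) ∧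
    (∀ j' < S.N, j' ≠ j → DLe (lin (ld (S.rt j) (S.ρB j'))) (V.A τ j')) ∧
    ∀ j' < S.N, ∀ r i, 0 < S.μ j' r → DLe (lin (ld (S.rt j) (S.ρC r i))) (V.cc τ r i)

end stage

/-! ### loads and series of the blocks of a net -/

section net

variable {X E Y : Type} [Fintype X] [DecidableEq X] [Fintype E] [DecidableEq E] [Fintype Y]
  [DecidableEq Y] (G : Net X E Y) (k : ℕ)

/-- the matrix of the letter `y` -/
def Mm (y : Y) : Matrix X X ℝ :=
  Matrix.of fun x z => ∑ e, if G.src e = x ∧ G.tgt e = z ∧ G.lt e = some y then G.wt e else 0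

/-- the matrix of the costs -/
def Fm (f : E → ℝ) : Matrix X X ℝ :=
  Matrix.of fun x z => ∑ e, if G.src e = x ∧ G.tgt e = z then G.wt e * f e else 0

/-- the probability of the skeleton `s` in a block of level `l + 1` from `x` to `x'` -/
noncomputable def mu (l : ℕ) (x x' : X) (s : Fin (k + 1) → X) : ℝ :=
  if s 0 = x ∧ s (Fin.last k) = x' then skw (G.P ^ k ^ l) s / (G.P ^ k ^ (l + 1)) x x' else 0

/-- the probability of the edge `e` in a block of level `0` from `x` to `x'` -/
noncomputable def mu0 (x x' : X) (e : E) : ℝ :=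
  if G.src e = x ∧ G.tgt e = x' then G.wt e / G.P x x' else 0

open Classical in
/-- the load vector of a block of level `l` -/
noncomputable def rho (good : ℕ → X → X → Prop) (β : ℝ) (l : ℕ) (x x' : X) (y : Y) : ℝ :=
  if good l x x' ∧ β ≤ uses G.P (Mm G) (k ^ l) x x' y then uses G.P (Mm G) (k ^ l) x x' y else 0

/-- the expected load of the children of a block -/
noncomputable def rtl (good : ℕ → X → X → Prop) (β : ℝ) : ℕ → X → X → Y → ℝ
  | 0, x, x', y => uses G.P (Mm G) 1 x x' y
  | l + 1, x, x', y => ∑ s : Fin (k + 1) → X, mu G k l x x' s *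
      ∑ i : Fin k, rho G k good β l (s i.castSucc) (s i.succ) y

/-- the series of the blocks, from series `a e` of the edges and marks `mk l x x'` -/
noncomputable def qs (a : E → DS) (mk : ℕ → X → X → DS) : ℕ → X → X → DS
  | 0, x, x' => dbl (∑ e, mu0 G x x' e • a e) + mk 0 x x'
  | l + 1, x, x' => dbl (∑ s : Fin (k + 1) → X, mu G k l x x' s •
      ∏ i : Fin k, qs a mk l (s i.castSucc) (s i.succ)) + mk (l + 1) x x'

/-- the matrix of the first components, times the probabilities -/
noncomputable def qF (a : E → DS) (mk : ℕ → X → X → DS) (l : ℕ) : Matrix X X PS :=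
  Matrix.of fun x x' => (G.P ^ k ^ l) x x' • (qs G k a mk l x x').fst

/-- the matrix of the second components, times the probabilities -/
noncomputable def qS (a : E → DS) (mk : ℕ → X → X → DS) (l : ℕ) : Matrix X X PS :=
  Matrix.of fun x x' => (G.P ^ k ^ l) x x' • (qs G k a mk l x x').snd

/-- the index set of the potential: `none` for the costs, `(l, A, B)` for the blocks of level `l`
from `A` to `B` -/
abbrev Idx (X : Type) (L : ℕ) : Type := Option (Fin (L + 1) × X × X)

/-- the value of a weight of letters on an optional letter -/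
def wo {Y : Type} (v : Y → ℝ) : Option Y → ℝ
  | none => 0
  | some y => v y

/-- the series of an edge -/
noncomputable def es (good : ℕ → X → X → Prop) (β : ℝ) (f : E → ℝ) {L : ℕ} : Idx X L → E → DS
  | none, e => 1 + TrivSqZeroExt.inr (PowerSeries.C (f e))
  | some (l, x, x'), e => lin (wo (rtl G k good β l x x') (G.lt e))

/-- the marks -/
noncomputable def mks {L : ℕ} : Idx X L → ℕ → X → X → DS
  | none, _, _, _ => 0
  | some (l, A, B), l', x, x' => if l' = l ∧ x = A ∧ x' = B then eps else 0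

/-- the series of the index `τ` of a block of level `l` -/
noncomputable def qq (good : ℕ → X → X → Prop) (β : ℝ) (f : E → ℝ) {L : ℕ} (τ : Idx X L) :
    ℕ → X → X → DS :=
  qs G k (es G k good β f τ) (mks τ)

/-- the weights of the potential -/
def wgt {L : ℕ} (w₀ : ℝ) : Idx X L → ℝ
  | none => w₀
  | some _ => 1

/-- the degrees of the potential -/
def deg {L : ℕ} (m : ℕ) : Idx X L → ℕ
  | none => 0
  | some _ => m

/-- the potential of the path `ω` of `N` steps of level `l` -/
noncomputable def pth (good : ℕ → X → X → Prop) (β : ℝ) (f : E → ℝ) (L m : ℕ) (w₀ : ℝ)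
    (l N : ℕ) (ω : ℕ → X) : ℝ :=
  ∑ τ : Idx X L, wgt w₀ τ * coeff (deg m τ)
    (∏ j ∈ range N, qq G k good β f τ l (ω j) (ω (j + 1))).snd

/-- the potential of the path `e` of `N` edges -/
noncomputable def pte (good : ℕ → X → X → Prop) (β : ℝ) (f : E → ℝ) (L m : ℕ) (w₀ : ℝ)
    (N : ℕ) (r : ℕ → E) : ℝ :=
  ∑ τ : Idx X L, wgt w₀ τ * coeff (deg m τ) (∏ j ∈ range N, es G k good β f τ (r j)).snd

/-- the load vector of an edge -/
def rhoE (e : E) (y : Y) : ℝ := if G.lt e = some y then 1 else 0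

open Classical in
/-- the stage which refines the steps of level `l + 1` of the path `ω` -/
noncomputable def stg (good : ℕ → X → X → Prop) (β : ℝ) (l N : ℕ) (ω : ℕ → X) :
    Stage (Fin (k + 1) → X) Y where
  N := N
  K := k
  μ j s := mu G k l (ω j) (ω (j + 1)) s
  ρB j := rho G k good β (l + 1) (ω j) (ω (j + 1))
  ρC s i := rho G k good β l (s i.castSucc) (s i.succ)
  acc s := (∀ i : Fin k, good l (s i.castSucc) (s i.succ)) ∧ ∀ i j : Fin k, i < j →
    ¬ Clash G.P (Mm G) (k ^ l) β (s i.castSucc) (s i.succ) (s j.castSucc) (s j.succ)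

/-- the stage which refines the steps of level `0` of the path `ω` by edges -/
noncomputable def stg0 (good : ℕ → X → X → Prop) (β : ℝ) (N : ℕ) (ω : ℕ → X) :
    Stage E Y where
  N := N
  K := 1
  μ j e := mu0 G (ω j) (ω (j + 1)) e
  ρB j := rho G k good β 0 (ω j) (ω (j + 1))
  ρC e _ := rhoE G e
  acc _ := True

/-- the series of the stage `stg` -/
noncomputable def pot (good : ℕ → X → X → Prop) (β : ℝ) (f : E → ℝ) (L m : ℕ) (w₀ : ℝ)
    (l N : ℕ) (ω : ℕ → X) : Pot (stg G k good β l N ω) (Idx X L) where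
  w := wgt w₀
  dg := deg m
  A τ j := qq G k good β f τ (l + 1) (ω j) (ω (j + 1))
  cc τ s i := qq G k good β f τ l (s (Fin.castSucc i)) (s (Fin.succ i))

/-- the series of the stage `stg0` -/
noncomputable def pot0 (good : ℕ → X → X → Prop) (β : ℝ) (f : E → ℝ) (L m : ℕ) (w₀ : ℝ)
    (N : ℕ) (ω : ℕ → X) : Pot (stg0 G k good β N ω) (Idx X L) where
  w := wgt w₀
  dg := deg m
  A τ j := qq G k good β f τ 0 (ω j) (ω (j + 1))
  cc τ e _ := es G k good β f τ e

/-- the hypotheses on the good blocks (the conclusion of part A) -/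
structure Good (L : ℕ) (g β : ℝ) (good : ℕ → X → X → Prop) : Prop where
  pos : ∀ l ≤ L, ∀ x x', good l x x' → 0 < (G.P ^ k ^ l) x x'
  mass : ∀ l ≤ L, ∀ x x', good l x x' → ∑ y, rho G k good β l x x' y ≤ g
  fail : ∀ l < L, ∀ x x', good (l + 1) x x' →
    failw G.P (Mm G) k (k ^ l) β (good l) x x' ≤ 1 / 4 * (G.P ^ k ^ (l + 1)) x x'

end net

end Pool.Agent.H67.AT
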