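import Pool.Agent.H67.AT.Defs
import Pool.Agent.H66.SLP.Net

/-!
# Part B of the abstract theorem: targets
-/

set_option autoImplicit false

open Finset PowerSeries

namespace Pool.Agent.H67.AT

/-! ### finite sums and series -/

/-- EXC: if the elementary symmetric sum is small then the sum is small outside of a set of fewer
than `m` indices. -/
def T_EXC : Prop := ∀ (ι : Type) [DecidableEq ι] (O : Finset ι) (c : ι → ℝ) (m : ℕ) (ζ : ℝ),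
  (∀ i ∈ O, 0 ≤ c i) → 1 ≤ m → 0 < ζ →
  ∑ T ∈ powersetCard m O, ∏ i ∈ T, c i < ζ ^ m / (m.factorial : ℝ) →
  ∃ S ⊆ O, S.card < m ∧ ∑ i ∈ O \ S, c i ≤ ζ

open Classical in
/-- EVT: the probability of an acceptable refinement. -/
def T_EVT : Prop := ∀ (R ι : Type) [Fintype R] [DecidableEq ι] (μ : R → ℝ) (acc : R → Prop)
  (O S : Finset ι) (f : R → ι → ℝ) (m : ℕ) (ζ : ℝ), (∀ r, 0 ≤ μ r) → ∑ r, μ r = 1 →
  ∑ r, (if acc r then 0 else μ r) ≤ 1 / 4 → (∀ r, ∀ o ∈ O, 0 ≤ f r o) → 1 ≤ m → 0 < ζ →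
  S ⊆ O → S.card < m → ∑ o ∈ O \ S, ∑ r, μ r * f r o ≤ ζ →
  1 / 2 ≤ ∑ r ∈ univ.filter fun r => acc r ∧
    ∀ o ∈ O, f r o ≤ 16 * m * ∑ r', μ r' * f r' o + 16 * ζ, μ r

/-- STG: a stage with an abstract potential. -/
def T_STG : Prop := ∀ (R Y : Type) [Fintype R] [Fintype Y] (S : Stage R Y) (β g η ζ : ℝ) (m : ℕ)
  (Ψ : ℕ → (ℕ → R) → ℝ) (r₀ : ℕ → R), 0 ≤ β → 0 ≤ g → 0 ≤ η → 1 ≤ m → 0 < ζ →
  S.Valid β g η → S.SM Ψ → S.LB m Ψ → Ψ 0 r₀ < ζ ^ m / (m.factorial : ℝ) →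
  ∃ r : ℕ → R, S.Adm S.N r ∧
    (∀ j < S.N, ∀ j' < S.N, ∀ i i', (j, i) ≠ (j', i') →
      ld (S.ρC (r j) i) (S.ρC (r j') i') ≤ eta2 m ζ β g η) ∧
    Ψ S.N r ≤ Ψ 0 r₀

/-- SMR: conditioning of series on an event of probability at least `1 / 2`. -/
def T_SMR : Prop := ∀ (R : Type) [Fintype R] (μ : R → ℝ) (E : Finset R) (F : R → DS) (q A : DS)
  (n : ℕ), (∀ r, 0 ≤ μ r) → ∑ r, μ r = 1 → 1 / 2 ≤ ∑ r ∈ E, μ r → (∀ r, DNn (F r)) →
  (∀ r, 0 < μ r → coeff 0 (F r).fst = 1) → DLe (dbl (∑ r, μ r • F r)) q → DNn A →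
  ∑ r ∈ E, μ r * coeff n (A * F r).snd ≤ (∑ r ∈ E, μ r) * coeff n (A * q).snd

/-- LIN: the elementary symmetric sums as coefficients. -/
def T_LIN : Prop := ∀ (ι : Type) [DecidableEq ι] (O : Finset ι) (c : ι → ℝ) (m : ℕ),
  coeff m (eps * ∏ o ∈ O, lin (c o)).snd = ∑ T ∈ powersetCard m O, ∏ i ∈ T, c i

/-- SMG: the potential of series is a supermartingale. -/
def T_SMG : Prop := ∀ (R Y T : Type) [Fintype R] [Fintype Y] [Fintype T] (S : Stage R Y)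
  (V : Pot S T) (β g η : ℝ) (m : ℕ), S.Valid β g η → V.OK m → S.SM V.Ψ

/-- LBG: the potential of series controls the elementary symmetric sums. -/
def T_LBG : Prop := ∀ (R Y T : Type) [Fintype R] [Fintype Y] [Fintype T] (S : Stage R Y)
  (V : Pot S T) (β g η : ℝ) (m : ℕ), S.Valid β g η → V.OK m → S.LB m V.Ψ

/-! ### skeletons -/

/-- SKM: a sum over the skeletons is a product of matrices. -/
def T_SKM : Prop := ∀ (𝓡 X : Type) [CommRing 𝓡] [Fintype X] [DecidableEq X] (k : ℕ)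
  (N : Fin k → Matrix X X 𝓡) (x x' : X),
  (∑ s : Fin (k + 1) → X, if s 0 = x ∧ s (Fin.last k) = x' then
    ∏ i : Fin k, N i (s i.castSucc) (s i.succ) else 0) = (List.ofFn N).prod x x'

/-- SK1: a sum over the skeletons with a marked step. -/
def T_SK1 : Prop := ∀ (𝓡 X : Type) [CommRing 𝓡] [Fintype X] [DecidableEq X] (k : ℕ)
  (A B : Matrix X X 𝓡) (x x' : X),
  (∑ s : Fin (k + 1) → X, if s 0 = x ∧ s (Fin.last k) = x' then
    ∑ j : Fin k, ∏ i : Fin k, (if i = j then B else A) (s i.castSucc) (s i.succ) else 0) =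
  (∑ j ∈ range k, A ^ j * B * A ^ (k - 1 - j)) x x'

/-- USE: the uses in a block of `k * h` steps. -/
def T_USE : Prop := ∀ (X : Type) [Fintype X] [DecidableEq X] (P M : Matrix X X ℝ) (k h : ℕ),
  usk P M (k * h) = ∑ j ∈ range k, (P ^ h) ^ j * usk P M h * (P ^ h) ^ (k - 1 - j)

/-- MU1: the skeletons of a block have total probability one. -/
def T_MU1 : Prop := ∀ (X E Y : Type) [Fintype X] [DecidableEq X] [Fintype E] [DecidableEq E]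
  [Fintype Y] [DecidableEq Y] (G : Net X E Y) (k l : ℕ) (x x' : X),
  0 < (G.P ^ k ^ (l + 1)) x x' →
  ∑ s : Fin (k + 1) → X, mu G k l x x' s = 1 ∧ ∀ s : Fin (k + 1) → X, 0 ≤ mu G k l x x' s ∧
    (0 < mu G k l x x' s → s 0 = x ∧ s (Fin.last k) = x' ∧
      ∀ i : Fin k, 0 < (G.P ^ k ^ l) (s i.castSucc) (s i.succ))

/-- MU0: the edges of a block of level `0` have total probability one. -/
def T_MU0 : Prop := ∀ (X E Y : Type) [Fintype X] [DecidableEq X] [Fintype E] [DecidableEq E]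
  [Fintype Y] [DecidableEq Y] (G : Net X E Y) (x x' : X), 0 < G.P x x' →
  ∑ e, mu0 G x x' e = 1 ∧ (∀ e, 0 ≤ mu0 G x x' e) ∧
    (∀ e, 0 < mu0 G x x' e → G.src e = x ∧ G.tgt e = x' ∧ 0 < G.wt e) ∧
    ∀ y, ∑ e, mu0 G x x' e * rhoE G e y = uses G.P (Mm G) 1 x x' y

/-- USU: the expected uses of a block are the expected sum of the expected uses of its children. -/
def T_USU : Prop := ∀ (X E Y : Type) [Fintype X] [DecidableEq X] [Fintype E] [DecidableEq E]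
  [Fintype Y] [DecidableEq Y] (G : Net X E Y) (k l : ℕ) (x x' : X) (y : Y),
  0 < (G.P ^ k ^ (l + 1)) x x' →
  ∑ s : Fin (k + 1) → X, mu G k l x x' s *
    ∑ i : Fin k, uses G.P (Mm G) (k ^ l) (s i.castSucc) (s i.succ) y =
  uses G.P (Mm G) (k ^ (l + 1)) x x' y

/-- RTU: the expected load of the children is at most the expected number of uses. -/
def T_RTU : Prop := ∀ (X E Y : Type) [Fintype X] [DecidableEq X] [Fintype E] [DecidableEq E]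
  [Fintype Y] [DecidableEq Y] (G : Net X E Y) (k : ℕ) (good : ℕ → X → X → Prop) (β : ℝ)
  (l : ℕ) (x x' : X) (y : Y), 0 < β →
  0 ≤ rho G k good β l x x' y ∧ rho G k good β l x x' y ≤ uses G.P (Mm G) (k ^ l) x x' y ∧
  0 ≤ rtl G k good β l x x' y ∧
  (0 < (G.P ^ k ^ l) x x' → rtl G k good β l x x' y ≤ uses G.P (Mm G) (k ^ l) x x' y) ∧
  (good l x x' → uses G.P (Mm G) (k ^ l) x x' y ≤ rho G k good β l x x' y + β)

/-- RTG: the total expected load of the children of a block is at most `k g`. -/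
def T_RTG : Prop := ∀ (X E Y : Type) [Fintype X] [DecidableEq X] [Fintype E] [DecidableEq E]
  [Fintype Y] [DecidableEq Y] (G : Net X E Y) (k L : ℕ) (g β : ℝ) (good : ℕ → X → X → Prop),
  1 ≤ k → 1 ≤ g → 0 < β → Good G k L g β good → ∀ l ≤ L, ∀ x x',
  ∑ y, rtl G k good β l x x' y ≤ k * g

/-! ### the stages -/

/-- SVL: the stage `stg` is valid. -/
def T_SVL : Prop := ∀ (X E Y : Type) [Fintype X] [DecidableEq X] [Fintype E] [DecidableEq E]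
  [Fintype Y] [DecidableEq Y] (G : Net X E Y) (k L : ℕ) (g β η : ℝ) (good : ℕ → X → X → Prop),
  0 < β → Good G k L g β good → ∀ l < L, ∀ (N : ℕ) (ω : ℕ → X),
  (∀ j < N, good (l + 1) (ω j) (ω (j + 1))) →
  (∀ j < N, ∀ j' < N, j ≠ j' → ld (rho G k good β (l + 1) (ω j) (ω (j + 1)))
    (rho G k good β (l + 1) (ω j') (ω (j' + 1))) ≤ η) →
  (stg G k good β l N ω).Valid β g η

/-- SV0: the stage `stg0` is valid. -/
def T_SV0 : Prop := ∀ (X E Y : Type) [Fintype X] [DecidableEq X] [Fintype E] [DecidableEq E]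
  [Fintype Y] [DecidableEq Y] (G : Net X E Y) (k L : ℕ) (g β η : ℝ) (good : ℕ → X → X → Prop),
  0 < β → 1 ≤ g → Good G k L g β good → ∀ (N : ℕ) (ω : ℕ → X),
  (∀ j < N, good 0 (ω j) (ω (j + 1))) →
  (∀ j < N, ∀ j' < N, j ≠ j' → ld (rho G k good β 0 (ω j) (ω (j + 1)))
    (rho G k good β 0 (ω j') (ω (j' + 1))) ≤ η) →
  (stg0 G k good β N ω).Valid β g η

/-- QNN: nonnegativity of the series, constant coefficient one. -/
def T_QNN : Prop := ∀ (X E Y : Type) [Fintype X] [DecidableEq X] [Fintype E] [DecidableEq E]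
  [Fintype Y] [DecidableEq Y] (G : Net X E Y) (k : ℕ) (a : E → DS) (mk : ℕ → X → X → DS),
  (∀ e, DNn (a e)) → (∀ l x x', DNn (mk l x x')) →
  (∀ l x x', DNn (qs G k a mk l x x')) ∧
  ((∀ e, coeff 0 (a e).fst = 1) → (∀ l x x', coeff 0 (mk l x x').fst = 0) →
    ∀ l x x', 0 < (G.P ^ k ^ l) x x' → coeff 0 (qs G k a mk l x x').fst = 1)

/-- QLO: the coefficient of `z` is at least the expected weight of the uses. -/
def T_QLO : Prop := ∀ (X E Y : Type) [Fintype X] [DecidableEq X] [Fintype E] [DecidableEq E]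
  [Fintype Y] [DecidableEq Y] (G : Net X E Y) (k : ℕ) (a : E → DS) (mk : ℕ → X → X → DS)
  (v : Y → ℝ), (∀ y, 0 ≤ v y) → (∀ e, DNn (a e)) → (∀ l x x', DNn (mk l x x')) →
  (∀ e, coeff 0 (a e).fst = 1) → (∀ l x x', coeff 0 (mk l x x').fst = 0) →
  (∀ e, wo v (G.lt e) ≤ coeff 1 (a e).fst) →
  ∀ l x x', 0 < (G.P ^ k ^ l) x x' →
  ∑ y, v y * uses G.P (Mm G) (k ^ l) x x' y ≤ coeff 1 (qs G k a mk l x x').fst

/-- PTO: the series of the stage `stg` satisfy the hypotheses. -/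
def T_PTO : Prop := ∀ (X E Y : Type) [Fintype X] [DecidableEq X] [Fintype E] [DecidableEq E]
  [Fintype Y] [DecidableEq Y] (G : Net X E Y) (k L m : ℕ) (g β w₀ : ℝ)
  (good : ℕ → X → X → Prop) (f : E → ℝ), 0 < β → 0 ≤ w₀ → (∀ e, 0 ≤ f e) →
  Good G k L g β good → ∀ l < L, ∀ (N : ℕ) (ω : ℕ → X),
  (∀ j < N, good (l + 1) (ω j) (ω (j + 1))) → (pot G k good β f L m w₀ l N ω).OK m

/-- PT0: the series of the stage `stg0` satisfy the hypotheses. -/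
def T_PT0 : Prop := ∀ (X E Y : Type) [Fintype X] [DecidableEq X] [Fintype E] [DecidableEq E]
  [Fintype Y] [DecidableEq Y] (G : Net X E Y) (k L m : ℕ) (g β w₀ : ℝ)
  (good : ℕ → X → X → Prop) (f : E → ℝ), 0 < β → 0 ≤ w₀ → (∀ e, 0 ≤ f e) →
  Good G k L g β good → ∀ (N : ℕ) (ω : ℕ → X),
  (∀ j < N, good 0 (ω j) (ω (j + 1))) → (pot0 G k good β f L m w₀ N ω).OK m

/-- GLU: skeletons of the steps of a path are glued to a finer path. -/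
def T_GLU : Prop := ∀ (X : Type) (k N : ℕ) (ω : ℕ → X) (r : ℕ → Fin (k + 1) → X), 1 ≤ k →
  (∀ j < N, r j 0 = ω j ∧ r j (Fin.last k) = ω (j + 1)) →
  ∃ ω' : ℕ → X, ω' 0 = ω 0 ∧ ω' (N * k) = ω N ∧
    (∀ j < N, ∀ i : Fin k, ω' (j * k + i) = r j i.castSucc ∧ ω' (j * k + i + 1) = r j i.succ) ∧
    ∀ (𝓡 : Type) [CommMonoid 𝓡] (F : X → X → 𝓡),
      ∏ t ∈ range (N * k), F (ω' t) (ω' (t + 1)) =
        ∏ j ∈ range N, ∏ i : Fin k, F (r j i.castSucc) (r j i.succ)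

/-- DWN: from a path of level `l + 1` to a path of level `l`. -/
def T_DWN : Prop := ∀ (X E Y : Type) [Fintype X] [DecidableEq X] [Fintype E] [DecidableEq E]
  [Fintype Y] [DecidableEq Y] (G : Net X E Y) (k L m : ℕ) (g β w₀ η ζ : ℝ)
  (good : ℕ → X → X → Prop) (f : E → ℝ), 1 ≤ k → 0 < β → 1 ≤ g → 0 ≤ w₀ → 0 ≤ η → 1 ≤ m → 0 < ζ →
  (∀ e, 0 ≤ f e) → Good G k L g β good → ∀ l < L, ∀ (N : ℕ) (ω : ℕ → X),
  (∀ j < N, good (l + 1) (ω j) (ω (j + 1))) →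
  (∀ j < N, ∀ j' < N, j ≠ j' → ld (rho G k good β (l + 1) (ω j) (ω (j + 1)))
    (rho G k good β (l + 1) (ω j') (ω (j' + 1))) ≤ η) →
  pth G k good β f L m w₀ (l + 1) N ω < ζ ^ m / (m.factorial : ℝ) →
  ∃ ω' : ℕ → X, ω' 0 = ω 0 ∧ ω' (N * k) = ω N ∧
    (∀ j < N * k, good l (ω' j) (ω' (j + 1))) ∧
    (∀ j < N * k, ∀ j' < N * k, j ≠ j' → ld (rho G k good β l (ω' j) (ω' (j + 1)))
      (rho G k good β l (ω' j') (ω' (j' + 1))) ≤ eta2 m ζ β g η) ∧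
    pth G k good β f L m w₀ l (N * k) ω' ≤ pth G k good β f L m w₀ (l + 1) N ω

/-- LST: from a path of level `0` to a path of edges. -/
def T_LST : Prop := ∀ (X E Y : Type) [Fintype X] [DecidableEq X] [Fintype E] [DecidableEq E]
  [Fintype Y] [DecidableEq Y] (G : Net X E Y) (k L m : ℕ) (g β w₀ η ζ : ℝ)
  (good : ℕ → X → X → Prop) (f : E → ℝ), 0 < β → 1 ≤ g → 0 ≤ w₀ → 0 ≤ η → 1 ≤ m → 0 < ζ →
  (∀ e, 0 ≤ f e) → Good G k L g β good → ∀ (N : ℕ) (ω : ℕ → X),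
  (∀ j < N, good 0 (ω j) (ω (j + 1))) →
  (∀ j < N, ∀ j' < N, j ≠ j' → ld (rho G k good β 0 (ω j) (ω (j + 1)))
    (rho G k good β 0 (ω j') (ω (j' + 1))) ≤ η) →
  pth G k good β f L m w₀ 0 N ω < ζ ^ m / (m.factorial : ℝ) → eta2 m ζ β g η < 1 →
  ∃ l : List E, l.length = N ∧ G.Walk l ∧ (∀ e ∈ l.head?, G.src e = ω 0) ∧
    (l.filterMap G.lt).Nodup ∧ w₀ * (l.map f).sum ≤ pth G k good β f L m w₀ 0 N ω

/-- LVS: from a good block of level `L` to a path of edges. -/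
def T_LVS : Prop := ∀ (X E Y : Type) [Fintype X] [DecidableEq X] [Fintype E] [DecidableEq E]
  [Fintype Y] [DecidableEq Y] (G : Net X E Y) (k L m : ℕ) (g β w₀ ζ : ℝ)
  (good : ℕ → X → X → Prop) (f : E → ℝ), 1 ≤ k → 0 < β → 1 ≤ g → 0 ≤ w₀ → 1 ≤ m → 0 < ζ →
  (∀ e, 0 ≤ f e) → Good G k L g β good → (eta2 m ζ β g)^[L + 1] 0 < 1 →
  ∀ x x', good L x x' →
  ∑ τ : Idx X L, wgt w₀ τ * coeff (deg m τ) (qq G k good β f τ L x x').snd <
    ζ ^ m / (m.factorial : ℝ) →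
  ∃ l : List E, l.length = k ^ L ∧ G.Walk l ∧ (∀ e ∈ l.head?, G.src e = x) ∧
    (l.filterMap G.lt).Nodup ∧ w₀ * (l.map f).sum ≤ ζ ^ m / (m.factorial : ℝ)

/-! ### the potential of the root -/

/-- QRC: recursion of the matrices of the series. -/
def T_QRC : Prop := ∀ (X E Y : Type) [Fintype X] [DecidableEq X] [Fintype E] [DecidableEq E]
  [Fintype Y] [DecidableEq Y] (G : Net X E Y) (k : ℕ) (a : E → DS) (mk : ℕ → X → X → DS),
  (∀ l x x', (mk l x x').fst = 0) →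
  (∀ x x', qF G k a mk 0 x x' =
    dblp (∑ e, if G.src e = x ∧ G.tgt e = x' then G.wt e • (a e).fst else 0)) ∧
  (∀ l x x', qF G k a mk (l + 1) x x' = dblp ((qF G k a mk l ^ k) x x')) ∧
  (∀ x x', qS G k a mk 0 x x' =
    (2 : ℝ) • (∑ e, if G.src e = x ∧ G.tgt e = x' then G.wt e • (a e).snd else 0) +
      G.P x x' • (mk 0 x x').snd) ∧
  ∀ l x x', qS G k a mk (l + 1) x x' =
    (2 : ℝ) • (∑ j ∈ range k, qF G k a mk l ^ j * qS G k a mk l * qF G k a mk l ^ (k - 1 - j)) x x'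
      + (G.P ^ k ^ (l + 1)) x x' • (mk (l + 1) x x').snd

/-- FST: bound of the first components. -/
def T_FST : Prop := ∀ (X E Y : Type) [Fintype X] [DecidableEq X] [Fintype E] [DecidableEq E]
  [Fintype Y] [DecidableEq Y] (G : Net X E Y) (k : ℕ) (a : E → DS) (mk : ℕ → X → X → DS)
  (v : Y → ℝ), (∀ y, 0 ≤ v y) → (∀ l x x', (mk l x x').fst = 0) →
  (∀ e, (a e).fst = (lin (wo v (G.lt e))).fst) → ∀ L : ℕ, ∀ l ≤ L,
  MNn (qF G k a mk l) ∧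
  MLe (qF G k a mk l) (linm G.P ((2 : ℝ) ^ (L + 1) • ∑ y, v y • Mm G y) ^ k ^ l)

/-- SND: bound of the second components, from the level `l₀` on. -/
def T_SND : Prop := ∀ (X E Y : Type) [Fintype X] [DecidableEq X] [Fintype E] [DecidableEq E]
  [Fintype Y] [DecidableEq Y] (G : Net X E Y) (k : ℕ) (a : E → DS) (mk : ℕ → X → X → DS)
  (T B : Matrix X X PS) (l₀ L : ℕ), (∀ e, DNn (a e)) → (∀ l x x', DNn (mk l x x')) →
  (∀ l x x', (mk l x x').fst = 0) → (∀ l > l₀, ∀ x x', mk l x x' = 0) → MNn T → MNn B →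
  (∀ l ≤ L, MLe (qF G k a mk l) (T ^ k ^ l)) → MLe (qS G k a mk l₀) B →
  ∀ d, l₀ + d ≤ L → MLe (qS G k a mk (l₀ + d))
    ((2 : ℝ) ^ d • ∑ i ∈ range (k ^ d), T ^ (i * k ^ l₀) * B * T ^ ((k ^ d - 1 - i) * k ^ l₀))

/-- COE: the coefficients of the powers of `P + z M`. -/
def T_COE : Prop := ∀ (X : Type) [Fintype X] [DecidableEq X] (P M : Matrix X X ℝ) (n : ℕ) (a : ℝ),
  0 ≤ a → (∀ x z, 0 ≤ P x z) → (∀ x z, 0 ≤ M x z) →
  ((∀ x, ∑ z, P x z ≤ 1) → (∀ x, ∑ t ∈ range n, ∑ z, (P ^ t * M) x z ≤ a) →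
    ∀ t ≤ n, ∀ q x, ∑ z, coeff q ((linm P M ^ t) x z) ≤ a ^ q) ∧
  ((∀ z, ∑ x, P x z ≤ 1) → (∀ z, ∑ t ∈ range n, ∑ x, (M * P ^ t) x z ≤ a) →
    ∀ t ≤ n, ∀ q z, ∑ x, coeff q ((linm P M ^ t) x z) ≤ a ^ q)

/-- TOT: the total coefficient of a product with one marked block. -/
def T_TOT : Prop := ∀ (X : Type) [Fintype X] [DecidableEq X] (P M : Matrix X X ℝ) (n : ℕ) (a : ℝ),
  0 ≤ a → (∀ x z, 0 ≤ P x z) → (∀ x z, 0 ≤ M x z) →
  (∀ x, ∑ z, P x z ≤ 1) → (∀ z, ∑ x, P x z ≤ 1) →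
  (∀ x, ∑ t ∈ range n, ∑ z, (P ^ t * M) x z ≤ a) → (∀ z, ∑ t ∈ range n, ∑ x, (M * P ^ t) x z ≤ a) →
  ∀ t ≤ n, ∀ t' ≤ n, ∀ (A B : X) (p : ℝ) (m : ℕ), 0 ≤ p →
  ∑ x, ∑ z, coeff m ((linm P M ^ t * (Matrix.of fun x z => if x = A ∧ z = B then
    PowerSeries.C p else 0) * linm P M ^ t') x z) ≤ (m + 1) * a ^ m * p

/-- NET: the matrices of a net. -/
def T_NET : Prop := ∀ (X E Y : Type) [Fintype X] [DecidableEq X] [Fintype E] [DecidableEq E]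
  [Fintype Y] [DecidableEq Y] (G : Net X E Y) (n : ℕ) (κ : ℝ),
  (∀ x y, G.up n x y ≤ κ) → (∀ x y, G.um n x y ≤ κ) → Sys G.P (Mm G) n κ

/-- RCF: the potential of the root, for a block of level `l`. -/
def T_RCF : Prop := ∀ (X E Y : Type) [Fintype X] [DecidableEq X] [Fintype E] [DecidableEq E]
  [Fintype Y] [DecidableEq Y] (G : Net X E Y) (k L m : ℕ) (g β κ : ℝ)
  (good : ℕ → X → X → Prop) (f : E → ℝ), 1 ≤ k → 0 < β → 1 ≤ g → 0 ≤ κ → (∀ e, 0 ≤ f e) →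
  Good G k L g β good → Sys G.P (Mm G) (k ^ L) κ → ∀ (l : Fin (L + 1)) (A B : X),
  ∑ x, ∑ x', (G.P ^ k ^ L) x x' *
    coeff m (qq G k good β f (some (l, A, B)) L x x').snd ≤
  (2 : ℝ) ^ L * (k : ℝ) ^ L * ((m + 1) * ((2 : ℝ) ^ (L + 1) * κ * (k * g)) ^ m) *
    (G.P ^ k ^ (l : ℕ)) A B

/-- RCO: the potential of the root, for the costs. -/
def T_RCO : Prop := ∀ (X E Y : Type) [Fintype X] [DecidableEq X] [Fintype E] [DecidableEq E]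
  [Fintype Y] [DecidableEq Y] (G : Net X E Y) (k L : ℕ) (β : ℝ)
  (good : ℕ → X → X → Prop) (f : E → ℝ) (s : X → ℝ), 1 ≤ k → (∀ e, 0 ≤ f e) → (∀ x, 0 ≤ s x) →
  ∑ x, ∑ x', s x * (G.P ^ k ^ L) x x' *
    coeff 0 (qq G k good β f (none : Idx X L) L x x').snd ≤ (2 : ℝ) ^ (L + 1) * G.ex s (k ^ L) f

/-- ROT: the potential of the root. -/
def T_ROT : Prop := ∀ (X E Y : Type) [Fintype X] [DecidableEq X] [Fintype E] [DecidableEq E]
  [Fintype Y] [DecidableEq Y] (G : Net X E Y) (k L m : ℕ) (g β κ w₀ : ℝ)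
  (good : ℕ → X → X → Prop) (f : E → ℝ) (s : X → ℝ), 1 ≤ k → 0 < β → 1 ≤ g → 0 ≤ κ → 0 ≤ w₀ →
  (∀ e, 0 ≤ f e) → (∀ x, 0 ≤ s x) → ∑ x, s x = 1 → Good G k L g β good →
  Sys G.P (Mm G) (k ^ L) κ →
  ∑ x, ∑ x', s x * (G.P ^ k ^ L) x x' *
    ∑ τ : Idx X L, wgt w₀ τ * coeff (deg m τ) (qq G k good β f τ L x x').snd ≤
  (L + 1) * (Fintype.card X) *
    ((2 : ℝ) ^ L * (k : ℝ) ^ L * ((m + 1) * ((2 : ℝ) ^ (L + 1) * κ * (k * g)) ^ m)) +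
    w₀ * ((2 : ℝ) ^ (L + 1) * G.ex s (k ^ L) f)

open Classical in
/-- SEL: the choice of the root. -/
def T_SEL : Prop := ∀ (X : Type) [Fintype X] (s : X → ℝ) (Q Ψ : X → X → ℝ)
  (good : X → X → Prop) (θ : ℝ), 0 < θ → (∀ x, 0 ≤ s x) → ∑ x, s x = 1 →
  (∀ x x', 0 ≤ Q x x') → (∀ x x', 0 < Q x x' → 0 ≤ Ψ x x') →
  1 / 2 ≤ ∑ x, ∑ x', s x * Q x x' →
  (∀ x, ∑ x', (if good x x' then 0 else Q x x') ≤ 1 / 8) →
  ∑ x, ∑ x', s x * Q x x' * Ψ x x' ≤ θ / 8 →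
  ∃ x x', 0 < s x ∧ 0 < Q x x' ∧ good x x' ∧ Ψ x x' < θ

/-- PAR: the choice of the parameters. -/
def T_PAR : Prop := ∀ (L D : ℕ) (g : ℝ), 1 ≤ g → ∃ (m : ℕ) (ζ β : ℝ), 1 ≤ m ∧ 0 < ζ ∧ 0 < β ∧
  (eta2 m ζ β g)^[L + 1] 0 < 1 ∧ ∃ k₀ : ℕ, ∀ k ≥ k₀,
  (L + 1) * (k : ℝ) ^ D *
    ((2 : ℝ) ^ L * (k : ℝ) ^ L * ((m + 1) * ((2 : ℝ) ^ (L + 1) * (1 / (k : ℝ) ^ 20) *
      (k * g)) ^ m)) ≤ ζ ^ m / (m.factorial : ℝ) / 16

/-! ### padding -/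

open Pool.Agent.H90.SPW in
/-- PAN: the paths of a chain are prolonged to `n'` steps by a tail of edges without letters; there
are at most as many letters as edges. -/
def T_PAN : Prop := ∀ (X E Y : Type) [Fintype X] [Fintype E] [Fintype Y] (c : Ch X E Y)
  (n n' : ℕ) (s : X → ℝ) (f : E → ℝ) (κ : ℝ), 1 ≤ n → n ≤ n' → 0 ≤ κ → c.UseLe n κ →
  c.rev.UseLe n κ → (∀ x, 0 ≤ s x) → ∑ x, s x = 1 →
  1 / 2 ≤ ∑ x, ∑ z, s x * c.P n x z → (∀ e, 0 ≤ f e) →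
  ∃ (X' E' Y' : Type) (_ : Fintype X') (_ : DecidableEq X') (_ : Fintype E') (_ : DecidableEq E')
    (_ : Fintype Y') (_ : DecidableEq Y') (G' : Net X' E' Y') (s' : X' → ℝ) (f' : E' → ℝ),
    Fintype.card X' ≤ Fintype.card X * (n' + 1) ∧ Fintype.card Y' ≤ Fintype.card E ∧
    (∀ x y, G'.up n' x y ≤ κ) ∧ (∀ x y, G'.um n' x y ≤ κ) ∧ (∀ x, 0 ≤ s' x) ∧ ∑ x, s' x = 1 ∧
    1 / 2 ≤ ∑ x, ∑ z, s' x * (G'.P ^ n') x z ∧ (∀ e, 0 ≤ f' e) ∧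
    G'.ex s' n' f' ≤ Pool.Agent.H66.SLP.exf c s n f ∧
    ∀ l' : List E', l'.length = n' → G'.Walk l' → (∀ e ∈ l'.head?, 0 < s' (G'.src e)) →
      (l'.filterMap G'.lt).Nodup → ∃ l : List E, l.length = n ∧ Pool.Agent.H66.SLP.Walk c l ∧
        (∀ e ∈ l.head?, 0 < s (c.src e)) ∧ (l.filterMap c.lt).Nodup ∧
        (l.map f).sum ≤ (l'.map f').sum

/-- PAK: the choice of `k`, `L`, `D`. -/
def T_PAK : Prop := ∀ c₀ : ℝ, 0 < c₀ → ∃ L D : ℕ, ∀ k₀ : ℕ, ∃ N₀ : ℕ, ∀ N ≥ N₀, ∃ k ≥ k₀,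
  1 ≤ k ∧ (N : ℝ) ^ (-c₀) ≤ 1 / (k : ℝ) ^ 20 ∧ N ≤ k ^ L ∧ N * (k ^ L + 1) ≤ k ^ D

open Pool.Agent.H90.SPW in
/-- EX0: if the expected cost is zero then every path has cost zero. -/
def T_EX0 : Prop := ∀ (X E Y : Type) [Fintype X] [Fintype E] [Fintype Y] (c : Ch X E Y) (n : ℕ)
  (s : X → ℝ) (f : E → ℝ), (∀ x, 0 ≤ s x) → (∀ e, 0 ≤ f e) →
  Pool.Agent.H66.SLP.exf c s n f = 0 → ∀ l : List E, l.length = n → Pool.Agent.H66.SLP.Walk c l →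
  (∀ e ∈ l.head?, 0 < s (c.src e)) → (l.map f).sum = 0

/-- COR: part B. -/
def T_COR : Prop := T_A → T_CORE

/-- PAD: from paths of `k ^ L` steps to paths of `n` steps. -/
def T_PAD : Prop := T_CORE → Pool.Agent.H66.SLP.T_AT

end Pool.Agent.H67.AT
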